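import Mathlib

/-!
Partitions of a finite set, the distance by splits and joins, and its formula.
-/

namespace Pool.Agent.LibPartitionMedian

variable {S : Type}

/-- `Y` arises from the partition `X` by replacing two classes by their union. -/
def IsJoin (X Y : Setoid S) : Prop :=
  ∃ A ∈ X.classes, ∃ B ∈ X.classes, A ≠ B ∧ Y.classes = (X.classes \ {A, B}) ∪ {A ∪ B}

/-- One operation: a join, or the reverse of a join, that is, replacing one class by two
nonempty classes whose union is that class. -/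
def Step (X Y : Setoid S) : Prop := IsJoin X Y ∨ IsJoin Y X

/-- `Y` can be reached from `X` by exactly `n` operations. -/
def Reach : ℕ → Setoid S → Setoid S → Prop
  | 0, X, Y => X = Y
  | n + 1, X, Y => ∃ Z, Step X Z ∧ Reach n Z Y

/-- The distance: the least number of operations that turn `X` into `Y`. -/
noncomputable def pdist (X Y : Setoid S) : ℕ := sInf {n | Reach n X Y}

/-- The number of classes of a partition. -/
noncomputable def nc (X : Setoid S) : ℕ := Nat.card (Quotient X)

/-- The partition whose only class with possibly more than one element is `A`. -/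
def one (A : Set S) : Setoid S where
  r x y := x = y ∨ (x ∈ A ∧ y ∈ A)
  iseqv := ⟨fun _ => Or.inl rfl, by
    rintro x y (h | ⟨h1, h2⟩)
    · exact Or.inl h.symm
    · exact Or.inr ⟨h2, h1⟩, by
    rintro x y z (rfl | ⟨h1, h2⟩) (rfl | ⟨h3, h4⟩)
    · exact Or.inl rfl
    · exact Or.inr ⟨h3, h4⟩
    · exact Or.inr ⟨h1, h2⟩
    · exact Or.inr ⟨h1, h4⟩⟩

theorem one_rel {A : Set S} {x y : S} : one A x y ↔ x = y ∨ (x ∈ A ∧ y ∈ A) := Iff.rfl

/-- The classes of `Z` that meet `A`. -/
def meets (A : Set S) (Z : Setoid S) : Set (Quotient Z) := {c | ∃ x ∈ A, Quotient.mk Z x = c}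

/-- The number of classes of `Z` that meet `A`. -/
noncomputable def nm (A : Set S) (Z : Setoid S) : ℕ := (meets A Z).ncard

open Classical in
/-- collapse the classes that meet `A` -/
noncomputable def colF (A : Set S) (Z : Setoid S) (x : S) : Option (Quotient Z) :=
  if Quotient.mk Z x ∈ meets A Z then none else some (Quotient.mk Z x)

theorem one_sup (A : Set S) (Z : Setoid S) : one A ⊔ Z = Setoid.ker (colF A Z) := by
  apply le_antisymm
  · apply sup_le
    · intro x y h
      rcases h with h | ⟨h1, h2⟩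
      · rw [h]
      · change colF A Z x = colF A Z y
        unfold colF
        rw [if_pos ⟨x, h1, rfl⟩, if_pos ⟨y, h2, rfl⟩]
    · intro x y h
      change colF A Z x = colF A Z y
      unfold colF
      rw [Quotient.sound h]
  · intro x y h
    change colF A Z x = colF A Z y at h
    unfold colF at h
    have hZ : Z ≤ one A ⊔ Z := le_sup_right
    have hA : one A ≤ one A ⊔ Z := le_sup_left
    split_ifs at h with h1 h2
    · obtain ⟨a, ha, ha'⟩ := h1
      obtain ⟨b, hb, hb'⟩ := h2
      have e1 : Z a x := Quotient.exact ha'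
      have e2 : Z b y := Quotient.exact hb'
      have e3 : one A a b := Or.inr ⟨ha, hb⟩
      exact (one A ⊔ Z).trans ((one A ⊔ Z).symm (hZ e1)) ((one A ⊔ Z).trans (hA e3) (hZ e2))
    · exact hZ (Quotient.exact (Option.some.inj h))

theorem sup_one_rel {A : Set S} {Z : Setoid S} {x y : S} :
    (one A ⊔ Z) x y ↔ Z x y ∨ (Quotient.mk Z x ∈ meets A Z ∧ Quotient.mk Z y ∈ meets A Z) := by
  rw [one_sup]
  change colF A Z x = colF A Z y ↔ _
  unfold colF
  constructor
  · intro h
    split_ifs at h with h1 h2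
    · exact Or.inr ⟨h1, h2⟩
    · exact Or.inl (Quotient.exact (Option.some.inj h))
  · rintro (h | ⟨h1, h2⟩)
    · rw [Quotient.sound h]
    · rw [if_pos h1, if_pos h2]

variable [Finite S]

theorem nc_one_sup (A : Set S) (hA : A.Nonempty) (Z : Setoid S) :
    nc (one A ⊔ Z) + nm A Z = nc Z + 1 := by
  classical
  rw [one_sup]
  have h1 : nc (Setoid.ker (colF A Z)) = (Set.range (colF A Z)).ncard := by
    unfold nc
    rw [Nat.card_congr (Setoid.quotientKerEquivRange (colF A Z))]
    rfl
  have h2 : Set.range (colF A Z) = insert none (some '' (meets A Z)ᶜ) := by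
    ext o
    constructor
    · rintro ⟨x, rfl⟩
      unfold colF
      split_ifs with h
      · exact Set.mem_insert _ _
      · exact Set.mem_insert_of_mem _ ⟨_, h, rfl⟩
    · rintro (rfl | ⟨c, hc, rfl⟩)
      · obtain ⟨a, ha⟩ := hA
        refine ⟨a, ?_⟩
        unfold colF
        rw [if_pos ⟨a, ha, rfl⟩]
      · obtain ⟨x, rfl⟩ := Quotient.exists_rep c
        refine ⟨x, ?_⟩
        unfold colF
        rw [if_neg hc]
  have h3 : (insert none (some '' (meets A Z)ᶜ)).ncard = (meets A Z)ᶜ.ncard + 1 := by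
    rw [Set.ncard_insert_of_notMem, Set.ncard_image_of_injective _ (Option.some_injective _)]
    rintro ⟨c, _, hc⟩
    cases hc
  have h4 : (meets A Z).ncard + (meets A Z)ᶜ.ncard = nc Z := Set.ncard_add_ncard_compl _
  unfold nm
  rw [h1, h2, h3]
  omega

theorem nm_pair_le (a b : S) (Z : Setoid S) : nm {a, b} Z ≤ 2 := by
  unfold nm
  have : meets {a, b} Z ⊆ {Quotient.mk Z a, Quotient.mk Z b} := by
    rintro c ⟨x, hx, rfl⟩
    rcases hx with rfl | rfl
    · exact Or.inl rfl
    · exact Or.inr rfl
  refine (Set.ncard_le_ncard this).trans ((Set.ncard_insert_le _ _).trans ?_)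
  rw [Set.ncard_singleton]

omit [Finite S] in
theorem nm_pair (a b : S) (Z : Setoid S) (h : ¬ Z a b) : nm {a, b} Z = 2 := by
  unfold nm
  have : meets {a, b} Z = {Quotient.mk Z a, Quotient.mk Z b} := by
    ext c
    constructor
    · rintro ⟨x, hx, rfl⟩
      rcases hx with rfl | rfl
      · exact Or.inl rfl
      · exact Or.inr rfl
    · rintro (rfl | rfl)
      · exact ⟨a, Or.inl rfl, rfl⟩
      · exact ⟨b, Or.inr rfl, rfl⟩
  rw [this, Set.ncard_pair]
  intro h'
  exact h (Quotient.exact h')

theorem nm_pos (A : Set S) (hA : A.Nonempty) (Z : Setoid S) : 1 ≤ nm A Z := by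
  obtain ⟨a, ha⟩ := hA
  unfold nm
  exact (Set.ncard_pos (Set.toFinite _)).2 ⟨_, a, ha, rfl⟩

omit [Finite S] in
/-- the classes after merging the classes of two inequivalent elements -/
theorem classes_pair (X : Setoid S) (a b : S) (h : ¬ X a b) :
    (one {a, b} ⊔ X).classes = (X.classes \ {{x | X x a}, {x | X x b}}) ∪
      {{x | X x a} ∪ {x | X x b}} := by
  have hm : ∀ x, Quotient.mk X x ∈ meets {a, b} X ↔ X x a ∨ X x b := by
    intro x
    constructor
    · rintro ⟨y, hy, hy'⟩
      have e : X y x := Quotient.exact hy'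
      rcases hy with rfl | rfl
      · exact Or.inl (X.symm e)
      · exact Or.inr (X.symm e)
    · rintro (h | h)
      · exact ⟨a, Or.inl rfl, Quotient.sound (X.symm h)⟩
      · exact ⟨b, Or.inr rfl, Quotient.sound (X.symm h)⟩
  ext D
  constructor
  · rintro ⟨y, rfl⟩
    by_cases hy : X y a ∨ X y b
    · right
      change _ = _
      ext x
      change (one {a, b} ⊔ X) x y ↔ X x a ∨ X x b
      rw [sup_one_rel, hm, hm]
      constructor
      · rintro (h1 | ⟨h1, -⟩)
        · rcases hy with hy | hy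
          · exact Or.inl (X.trans h1 hy)
          · exact Or.inr (X.trans h1 hy)
        · exact h1
      · intro h1
        exact Or.inr ⟨h1, hy⟩
    · left
      refine ⟨⟨y, ?_⟩, ?_⟩
      · ext x
        change (one {a, b} ⊔ X) x y ↔ X x y
        rw [sup_one_rel, hm, hm]
        constructor
        · rintro (h1 | ⟨-, h1⟩)
          · exact h1
          · exact absurd h1 hy
        · exact Or.inl
      · have hyD : y ∈ {x | (one {a, b} ⊔ X) x y} := (one {a, b} ⊔ X).refl y
        rintro (h1 | h1)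
        · rw [h1] at hyD
          exact hy (Or.inl hyD)
        · change _ = _ at h1
          rw [h1] at hyD
          exact hy (Or.inr hyD)
  · rintro (⟨⟨y, rfl⟩, h1⟩ | h1)
    · have hy : ¬ (X y a ∨ X y b) := by
        intro h2
        apply h1
        rcases h2 with h2 | h2
        · left
          ext x
          exact ⟨fun h3 => X.trans h3 h2, fun h3 => X.trans h3 (X.symm h2)⟩
        · right
          change _ = _
          ext x
          exact ⟨fun h3 => X.trans h3 h2, fun h3 => X.trans h3 (X.symm h2)⟩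
      refine ⟨y, ?_⟩
      ext x
      change X x y ↔ (one {a, b} ⊔ X) x y
      rw [sup_one_rel, hm, hm]
      constructor
      · exact Or.inl
      · rintro (h2 | ⟨-, h2⟩)
        · exact h2
        · exact absurd h2 hy
    · change _ = _ at h1
      subst h1
      refine ⟨a, ?_⟩
      ext x
      change X x a ∨ X x b ↔ (one {a, b} ⊔ X) x a
      rw [sup_one_rel, hm, hm]
      constructor
      · intro h2
        exact Or.inr ⟨h2, Or.inl (X.refl a)⟩
      · rintro (h2 | ⟨h2, -⟩)
        · exact Or.inl h2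
        · exact h2

omit [Finite S] in
theorem isJoin_iff (X Y : Setoid S) :
    IsJoin X Y ↔ ∃ a b, ¬ X a b ∧ Y = one {a, b} ⊔ X := by
  constructor
  · rintro ⟨A, ⟨a, rfl⟩, B, ⟨b, rfl⟩, hne, hY⟩
    have hab : ¬ X a b := by
      intro h
      apply hne
      ext x
      exact ⟨fun h1 => X.trans h1 h, fun h1 => X.trans h1 (X.symm h)⟩
    refine ⟨a, b, hab, ?_⟩
    rw [Setoid.classes_inj, hY, classes_pair X a b hab]
  · rintro ⟨a, b, hab, rfl⟩
    refine ⟨{x | X x a}, X.mem_classes a, {x | X x b}, X.mem_classes b, ?_,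
      classes_pair X a b hab⟩
    intro h
    apply hab
    have : a ∈ {x | X x a} := X.refl a
    rw [h] at this
    exact this

theorem nc_join {X Y : Setoid S} (h : IsJoin X Y) : nc X = nc Y + 1 := by
  obtain ⟨a, b, hab, rfl⟩ := (isJoin_iff X Y).1 h
  have h1 := nc_one_sup {a, b} ⟨a, Or.inl rfl⟩ X
  rw [nm_pair a b X hab] at h1
  omega

theorem nc_join_sup {X Y : Setoid S} (h : IsJoin X Y) (Z : Setoid S) :
    nc (X ⊔ Z) ≤ nc (Y ⊔ Z) + 1 ∧ nc (Y ⊔ Z) ≤ nc (X ⊔ Z) := by
  obtain ⟨a, b, hab, rfl⟩ := (isJoin_iff X Y).1 h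
  have h1 := nc_one_sup {a, b} ⟨a, Or.inl rfl⟩ (X ⊔ Z)
  have h2 := nm_pair_le a b (X ⊔ Z)
  have h3 := nm_pos {a, b} ⟨a, Or.inl rfl⟩ (X ⊔ Z)
  rw [sup_assoc]
  omega

theorem lower_aux : ∀ (n : ℕ) (X Y : Setoid S), Reach n X Y →
    nc X + nc Y ≤ n + 2 * nc (X ⊔ Y) := by
  intro n
  induction n with
  | zero =>
    rintro X Y rfl
    rw [sup_idem]; omega
  | succ n ih =>
    rintro X Y ⟨Z, hs, hr⟩
    have h1 := ih Z Y hr
    rcases hs with h | h
    · have h2 := nc_join h
      have h3 := nc_join_sup h Y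
      omega
    · have h2 := nc_join h
      have h3 := nc_join_sup h Y
      omega

omit [Finite S] in
theorem reach_trans : ∀ (n m : ℕ) (X Y Z : Setoid S), Reach n X Y → Reach m Y Z →
    Reach (n + m) X Z := by
  intro n
  induction n with
  | zero =>
    rintro m X Y Z rfl h
    rwa [Nat.zero_add]
  | succ n ih =>
    rintro m X Y Z ⟨W, h1, h2⟩ h3
    rw [Nat.succ_add]
    exact ⟨W, h1, ih m W Y Z h2 h3⟩

omit [Finite S] in
theorem reach_symm : ∀ (n : ℕ) (X Y : Setoid S), Reach n X Y → Reach n Y X := by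
  intro n
  induction n with
  | zero => rintro X Y rfl; rfl
  | succ n ih =>
    rintro X Y ⟨W, h1, h2⟩
    exact reach_trans n 1 Y W X (ih W Y h2) ⟨X, h1.symm, rfl⟩

theorem nc_le_of_le {X Y : Setoid S} (h : X ≤ Y) : nc Y ≤ nc X := by
  unfold nc
  apply Nat.card_le_card_of_surjective (Quotient.map' id h)
  intro c
  obtain ⟨x, rfl⟩ := Quotient.exists_rep c
  exact ⟨Quotient.mk X x, rfl⟩

theorem reach_up : ∀ (n : ℕ) (X W : Setoid S), X ≤ W → nc X = nc W + n → Reach n X W := by
  intro n
  induction n with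
  | zero =>
    intro X W h1 h2
    by_contra hne
    have : ∃ a b, W a b ∧ ¬ X a b := by
      by_contra hcon
      push Not at hcon
      exact hne (le_antisymm h1 (fun x y h => hcon x y h))
    obtain ⟨a, b, hW, hX⟩ := this
    have hj : IsJoin X (one {a, b} ⊔ X) := (isJoin_iff _ _).2 ⟨a, b, hX, rfl⟩
    have h3 := nc_join hj
    have h4 : one {a, b} ⊔ X ≤ W := by
      apply sup_le _ h1
      intro x y h
      rcases h with h | ⟨hx, hy⟩
      · rw [h]
      · rcases hx with rfl | rfl <;> rcases hy with rfl | rfl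
        · exact W.refl _
        · exact hW
        · exact W.symm hW
        · exact W.refl _
    have h5 := nc_le_of_le h4
    omega
  | succ n ih =>
    intro X W h1 h2
    have : ∃ a b, W a b ∧ ¬ X a b := by
      by_contra hcon
      push Not at hcon
      have : X = W := le_antisymm h1 (fun x y h => hcon x y h)
      rw [this] at h2
      omega
    obtain ⟨a, b, hW, hX⟩ := this
    have hj : IsJoin X (one {a, b} ⊔ X) := (isJoin_iff _ _).2 ⟨a, b, hX, rfl⟩
    have h3 := nc_join hj
    have h4 : one {a, b} ⊔ X ≤ W := by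
      apply sup_le _ h1
      intro x y h
      rcases h with h | ⟨hx, hy⟩
      · rw [h]
      · rcases hx with rfl | rfl <;> rcases hy with rfl | rfl
        · exact W.refl _
        · exact hW
        · exact W.symm hW
        · exact W.refl _
    exact ⟨_, Or.inl hj, ih _ W h4 (by omega)⟩

/-- The distance formula `d(X,Y) = |X| + |Y| - 2 |X ∨ Y|`. -/
theorem pdist_formula (X Y : Setoid S) : pdist X Y + 2 * nc (X ⊔ Y) = nc X + nc Y := by
  have hX : nc (X ⊔ Y) ≤ nc X := nc_le_of_le le_sup_left
  have hY : nc (X ⊔ Y) ≤ nc Y := nc_le_of_le le_sup_right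
  have h1 : Reach (nc X - nc (X ⊔ Y)) X (X ⊔ Y) := reach_up _ _ _ le_sup_left (by omega)
  have h2 : Reach (nc Y - nc (X ⊔ Y)) Y (X ⊔ Y) := reach_up _ _ _ le_sup_right (by omega)
  have h3 := reach_trans _ _ _ _ _ h1 (reach_symm _ _ _ h2)
  have h4 : pdist X Y ≤ (nc X - nc (X ⊔ Y)) + (nc Y - nc (X ⊔ Y)) := Nat.sInf_le h3
  have h5 : Reach (pdist X Y) X Y := Nat.sInf_mem (s := {n | Reach n X Y}) ⟨_, h3⟩
  have h6 := lower_aux _ _ _ h5
  omega

end Pool.Agent.LibPartitionMedian
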