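import Pool.Agent.LibPartitionMedian.Dist

/-!
The partition median instance of a multigraph and its analysis.
-/

set_option linter.unusedSectionVars false

namespace Pool.Agent.LibPartitionMedian

open Finset

theorem nc_bot {S : Type} [Fintype S] : nc (⊥ : Setoid S) = Fintype.card S := by
  unfold nc
  rw [Nat.card_congr (Equiv.ofBijective (fun x : S => (Quotient.mk (⊥ : Setoid S) x))
    ⟨fun x y h => Quotient.exact h, Quotient.mk_surjective⟩).symm, Nat.card_eq_fintype_card]

theorem nc_top {S : Type} [Finite S] [Nonempty S] : nc (⊤ : Setoid S) = 1 := by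
  unfold nc
  have : Subsingleton (Quotient (⊤ : Setoid S)) := by
    constructor
    intro x y
    obtain ⟨a, rfl⟩ := Quotient.exists_rep x
    obtain ⟨b, rfl⟩ := Quotient.exists_rep y
    exact Quotient.sound trivial
  have : Nonempty (Quotient (⊤ : Setoid S)) := ⟨Quotient.mk _ (Classical.arbitrary S)⟩
  exact Nat.card_eq_one_iff_unique.2 ⟨inferInstance, inferInstance⟩

section Two

variable {S : Type} [Finite S]

theorem meets_union (A B : Set S) (Z : Setoid S) : meets (A ∪ B) Z = meets A Z ∪ meets B Z := by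
  ext c
  constructor
  · rintro ⟨x, hx | hx, rfl⟩
    · exact Or.inl ⟨x, hx, rfl⟩
    · exact Or.inr ⟨x, hx, rfl⟩
  · rintro (⟨x, hx, rfl⟩ | ⟨x, hx, rfl⟩)
    · exact ⟨x, Or.inl hx, rfl⟩
    · exact ⟨x, Or.inr hx, rfl⟩

/-- Some class of `Z` meets both `A` and `B`. -/
def Linked (A B : Set S) (Z : Setoid S) : Prop := ∃ x ∈ A, ∃ y ∈ B, Z x y

theorem nc_two_linked (A B : Set S) (hA : A.Nonempty) (Z : Setoid S) (h : Linked A B Z) :
    nc ((one A ⊔ one B) ⊔ Z) + nm (A ∪ B) Z = nc Z + 1 := by
  have e : (one A ⊔ one B) ⊔ Z = one (A ∪ B) ⊔ Z := by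
    apply le_antisymm
    · apply sup_le _ le_sup_right
      apply sup_le
      · refine le_trans ?_ le_sup_left
        intro x y hxy
        rcases hxy with hxy | ⟨h1, h2⟩
        · exact Or.inl hxy
        · exact Or.inr ⟨Or.inl h1, Or.inl h2⟩
      · refine le_trans ?_ le_sup_left
        intro x y hxy
        rcases hxy with hxy | ⟨h1, h2⟩
        · exact Or.inl hxy
        · exact Or.inr ⟨Or.inr h1, Or.inr h2⟩
    · apply sup_le _ le_sup_right
      obtain ⟨a, ha, b, hb, hab⟩ := h
      set W := (one A ⊔ one B) ⊔ Z with hW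
      have hAW : one A ≤ W := le_sup_left.trans le_sup_left
      have hBW : one B ≤ W := le_sup_right.trans le_sup_left
      have hZW : Z ≤ W := le_sup_right
      have key : ∀ x, x ∈ A ∪ B → W x a := by
        rintro x (hx | hx)
        · exact hAW (Or.inr ⟨hx, ha⟩)
        · exact W.trans (hBW (Or.inr ⟨hx, hb⟩)) (W.symm (hZW hab))
      intro x y hxy
      rcases hxy with hxy | ⟨h1, h2⟩
      · rw [hxy]
      · exact W.trans (key x h1) (W.symm (key y h2))
  rw [e]
  exact nc_one_sup _ (hA.mono Set.subset_union_left) Z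

theorem nc_two_unlinked (A B : Set S) (hA : A.Nonempty) (hB : B.Nonempty) (Z : Setoid S)
    (h : ¬ Linked A B Z) :
    nc ((one A ⊔ one B) ⊔ Z) + nm (A ∪ B) Z = nc Z + 2 := by
  have h1 := nc_one_sup B hB Z
  have h2 := nc_one_sup A hA (one B ⊔ Z)
  have hdisj : Disjoint (meets A Z) (meets B Z) := by
    rw [Set.disjoint_left]
    rintro c ⟨x, hx, rfl⟩ ⟨y, hy, hyx⟩
    exact h ⟨x, hx, y, hy, Z.symm (Quotient.exact hyx)⟩
  have h3 : nm A (one B ⊔ Z) = nm A Z := by
    let f : Quotient Z → Quotient (one B ⊔ Z) := Quotient.map' id (le_sup_right : Z ≤ one B ⊔ Z)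
    have hf : ∀ x, f (Quotient.mk Z x) = Quotient.mk (one B ⊔ Z) x := fun x => rfl
    have himg : meets A (one B ⊔ Z) = f '' meets A Z := by
      ext c
      constructor
      · rintro ⟨x, hx, rfl⟩
        exact ⟨Quotient.mk Z x, ⟨x, hx, rfl⟩, rfl⟩
      · rintro ⟨_, ⟨x, hx, rfl⟩, rfl⟩
        exact ⟨x, hx, rfl⟩
    unfold nm
    rw [himg]
    apply Set.InjOn.ncard_image
    rintro _ ⟨x, hx, rfl⟩ _ ⟨y, hy, rfl⟩ hxy
    have hxy' : (one B ⊔ Z) x y := Quotient.exact hxy
    rw [sup_one_rel] at hxy'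
    rcases hxy' with hxy' | ⟨⟨z, hz, hzx⟩, -⟩
    · exact Quotient.sound hxy'
    · exact absurd ⟨x, hx, z, hz, Z.symm (Quotient.exact hzx)⟩ h
  have h4 : nm (A ∪ B) Z = nm A Z + nm B Z := by
    unfold nm
    rw [meets_union]
    exact Set.ncard_union_eq hdisj (Set.toFinite _) (Set.toFinite _)
  rw [sup_assoc]
  omega

end Two

section Gadget

variable {V E : Type} [Fintype V] [Fintype E] [DecidableEq V] [DecidableEq E]

/-- The elements of the class number `r` of the vertex `u`. -/
def AV (a b : E → V) (u : V) (r : Bool) : Set (E × Bool × Bool) :=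
  {x | (a x.1 = u ∧ x.2.1 = r) ∨ (b x.1 = u ∧ x.2.2 = r)}

/-- The elements of the edge `e`. -/
def AE (e : E) : Set (E × Bool × Bool) := {x | x.1 = e}

/-- The partition of the vertex `u`, with the classes `AV a b u true`, `AV a b u false`
and singletons. -/
def XV (a b : E → V) (u : V) : Setoid (E × Bool × Bool) :=
  one (AV a b u true) ⊔ one (AV a b u false)

/-- The partition of the edge `e`, with the class `AE e` and singletons. -/
def XE (e : E) : Setoid (E × Bool × Bool) := one (AE e)

/-- degree in the multigraph -/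
def deg (a b : E → V) (u : V) : ℕ := (univ.filter fun e => a e = u).card + (univ.filter fun e => b e = u).card

/-- multiplicity of the partition of a vertex -/
def mulV (a b : E → V) (u : V) : ℕ := 2 * deg a b u - 1

/-- the constant `κ` -/
def kap (E : Type) [Fintype E] : ℕ := 16 * Fintype.card E + 1

/-- multiplicity of the partition of an edge -/
def mulE (a b : E → V) (e : E) : ℕ := kap E - mulV a b (a e) - mulV a b (b e)

/-- number of copies of the partition with one class -/
def mulT (a b : E → V) : ℕ := ∑ u, mulV a b u + ∑ e, mulE a b e + 2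

/-- number of copies of the discrete partition -/
def mulB (E : Type) [Fintype E] : ℕ := 2 * kap E

/-- The total distance of `Y` to the partitions of the instance. -/
noncomputable def cost (a b : E → V) (Y : Setoid (E × Bool × Bool)) : ℕ :=
  ∑ u, mulV a b u * pdist (XV a b u) Y + ∑ e, mulE a b e * pdist (XE e) Y +
    mulT a b * pdist ⊤ Y + mulB E * pdist ⊥ Y

omit [DecidableEq E] in
theorem deg_le (a b : E → V) (u : V) : deg a b u ≤ 2 * Fintype.card E := by
  unfold deg
  have h1 : (univ.filter fun e => a e = u).card ≤ Fintype.card E := card_le_univ _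
  have h2 : (univ.filter fun e => b e = u).card ≤ Fintype.card E := card_le_univ _
  omega

omit [DecidableEq E] in
theorem mulE_add (a b : E → V) (e : E) :
    mulE a b e + mulV a b (a e) + mulV a b (b e) = kap E ∧ kap E + 1 ≤ 2 * mulE a b e := by
  have h1 := deg_le a b (a e)
  have h2 := deg_le a b (b e)
  unfold mulE mulV kap
  omega

/-- `u` is linked: some class of `Y` meets both classes of `u`. -/
def Lk (a b : E → V) (Y : Setoid (E × Bool × Bool)) (u : V) : Prop :=
  Linked (AV a b u true) (AV a b u false) Y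

/-- all elements at `u` -/
def AA (a b : E → V) (u : V) : Set (E × Bool × Bool) := AV a b u true ∪ AV a b u false

omit [Fintype V] [Fintype E] [DecidableEq V] [DecidableEq E] in
theorem mem_AA {a b : E → V} {u : V} {x : E × Bool × Bool} :
    x ∈ AA a b u ↔ a x.1 = u ∨ b x.1 = u := by
  unfold AA AV
  constructor
  · rintro ((⟨h, -⟩ | ⟨h, -⟩) | (⟨h, -⟩ | ⟨h, -⟩))
    · exact Or.inl h
    · exact Or.inr h
    · exact Or.inl h
    · exact Or.inr h
  · rintro (h | h)
    · cases h2 : x.2.1
      · exact Or.inr (Or.inl ⟨h, h2⟩)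
      · exact Or.inl (Or.inl ⟨h, h2⟩)
    · cases h2 : x.2.2
      · exact Or.inr (Or.inr ⟨h, h2⟩)
      · exact Or.inl (Or.inr ⟨h, h2⟩)

omit [Fintype V] [Fintype E] [DecidableEq V] [DecidableEq E] in
theorem AV_nonempty {a b : E → V} {u : V} (h : ∃ e, a e = u ∨ b e = u) (r : Bool) :
    (AV a b u r).Nonempty := by
  obtain ⟨e, he | he⟩ := h
  · exact ⟨(e, r, r), Or.inl ⟨he, rfl⟩⟩
  · exact ⟨(e, r, r), Or.inr ⟨he, rfl⟩⟩

/-- the weight of a class -/
noncomputable def wt (a b : E → V) (Y : Setoid (E × Bool × Bool)) (C : Quotient Y) : ℤ := by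
  classical
  exact 2 - 2 * (kap E : ℤ) + 2 * ∑ u, (if C ∈ meets (AA a b u) Y then (mulV a b u : ℤ) else 0)
    + 2 * ∑ e, (if C ∈ meets (AE e) Y then (mulE a b e : ℤ) else 0)

/-- the constant part of the cost -/
noncomputable def cst (a b : E → V) : ℤ :=
  ∑ u, (mulV a b u : ℤ) * ((nc (XV a b u) : ℤ) - 4) + ∑ e, (mulE a b e : ℤ) * ((nc (XE e) : ℤ) - 2)
    - mulT a b + mulB E * (Fintype.card (E × Bool × Bool) : ℤ)

open Classical in
theorem cost_eq (a b : E → V) (hdeg : ∀ u, ∃ e, a e = u ∨ b e = u) [Nonempty E]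
    (Y : Setoid (E × Bool × Bool)) [Fintype (Quotient Y)] :
    (cost a b Y : ℤ) = cst a b + ∑ C : Quotient Y, wt a b Y C +
      2 * ∑ u, (if Lk a b Y u then (mulV a b u : ℤ) else 0) := by
  have hV : ∀ u, (pdist (XV a b u) Y : ℤ) = nc (XV a b u) - nc Y + 2 * nm (AA a b u) Y - 4 +
      (if Lk a b Y u then 2 else 0) := by
    intro u
    have h1 := pdist_formula (XV a b u) Y
    split_ifs with h
    · have h2 := nc_two_linked _ _ (AV_nonempty (hdeg u) true) Y h
      change nc (XV a b u ⊔ Y) + nm (AA a b u) Y = _ at h2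
      omega
    · have h2 := nc_two_unlinked _ _ (AV_nonempty (hdeg u) true) (AV_nonempty (hdeg u) false) Y h
      change nc (XV a b u ⊔ Y) + nm (AA a b u) Y = _ at h2
      omega
  have hE : ∀ e : E, (pdist (XE e) Y : ℤ) = nc (XE e) - nc Y + 2 * nm (AE e) Y - 2 := by
    intro e
    have h1 := pdist_formula (XE e) Y
    have h2 := nc_one_sup (AE e) ⟨(e, true, true), rfl⟩ Y
    change nc (XE e ⊔ Y) + _ = _ at h2
    omega
  have hT : (pdist ⊤ Y : ℤ) = nc Y - 1 := by
    have h1 := pdist_formula ⊤ Y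
    rw [top_sup_eq, nc_top] at h1
    omega
  have hB : (pdist ⊥ Y : ℤ) = Fintype.card (E × Bool × Bool) - nc Y := by
    have h1 := pdist_formula ⊥ Y
    rw [bot_sup_eq, nc_bot] at h1
    omega
  have hnc : (nc Y : ℤ) = ∑ C : Quotient Y, (1 : ℤ) := by
    unfold nc
    rw [Nat.card_eq_fintype_card]
    simp
  have hnm : ∀ A : Set (E × Bool × Bool), (nm A Y : ℤ) =
      ∑ C : Quotient Y, (if C ∈ meets A Y then (1 : ℤ) else 0) := by
    intro A
    unfold nm
    rw [Set.ncard_eq_toFinset_card']
    simp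
  have hsV : ∑ u, (mulV a b u : ℤ) * nm (AA a b u) Y =
      ∑ C : Quotient Y, ∑ u, (if C ∈ meets (AA a b u) Y then (mulV a b u : ℤ) else 0) := by
    rw [Finset.sum_comm]
    apply Finset.sum_congr rfl
    intro u _
    rw [hnm, Finset.mul_sum]
    apply Finset.sum_congr rfl
    intro C _
    split_ifs <;> simp
  have hsE : ∑ e, (mulE a b e : ℤ) * nm (AE e) Y =
      ∑ C : Quotient Y, ∑ e, (if C ∈ meets (AE e) Y then (mulE a b e : ℤ) else 0) := by
    rw [Finset.sum_comm]
    apply Finset.sum_congr rfl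
    intro e _
    rw [hnm, Finset.mul_sum]
    apply Finset.sum_congr rfl
    intro C _
    split_ifs <;> simp
  have hwt : ∑ C : Quotient Y, wt a b Y C = (2 - 2 * (kap E : ℤ)) * nc Y +
      2 * ∑ u, (mulV a b u : ℤ) * nm (AA a b u) Y + 2 * ∑ e, (mulE a b e : ℤ) * nm (AE e) Y := by
    rw [hsV, hsE, hnc]
    unfold wt
    rw [Finset.sum_add_distrib, Finset.sum_add_distrib, ← Finset.mul_sum, ← Finset.mul_sum]
    congr 2
    rw [Finset.mul_sum]
    simp
  have hlk : 2 * ∑ u, (if Lk a b Y u then (mulV a b u : ℤ) else 0) =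
      ∑ u, (mulV a b u : ℤ) * (if Lk a b Y u then 2 else 0) := by
    rw [Finset.mul_sum]
    apply Finset.sum_congr rfl
    intro u _
    split_ifs <;> ring
  rw [hwt, hlk]
  unfold cost cst
  push_cast
  simp only [hV, hE, hT, hB]
  unfold mulT mulB
  push_cast
  have e1 : ∑ u, (mulV a b u : ℤ) * (nc (XV a b u) - nc Y + 2 * nm (AA a b u) Y - 4 +
      (if Lk a b Y u then 2 else 0)) = ∑ u, (mulV a b u : ℤ) * ((nc (XV a b u) : ℤ) - 4) -
      nc Y * ∑ u, (mulV a b u : ℤ) + 2 * ∑ u, (mulV a b u : ℤ) * nm (AA a b u) Y +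
      ∑ u, (mulV a b u : ℤ) * (if Lk a b Y u then 2 else 0) := by
    rw [Finset.mul_sum, Finset.mul_sum, ← Finset.sum_sub_distrib, ← Finset.sum_add_distrib,
      ← Finset.sum_add_distrib]
    apply Finset.sum_congr rfl
    intro u _
    ring
  have e2 : ∑ e, (mulE a b e : ℤ) * ((nc (XE e) : ℤ) - nc Y + 2 * nm (AE e) Y - 2) =
      ∑ e, (mulE a b e : ℤ) * ((nc (XE e) : ℤ) - 2) -
      nc Y * ∑ e, (mulE a b e : ℤ) + 2 * ∑ e, (mulE a b e : ℤ) * nm (AE e) Y := by
    rw [Finset.mul_sum, Finset.mul_sum, ← Finset.sum_sub_distrib, ← Finset.sum_add_distrib]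
    apply Finset.sum_congr rfl
    intro u _
    ring
  rw [e1, e2]
  ring


open Classical in
theorem wt_ge (a b : E → V) (hab : ∀ e, a e ≠ b e) (Y : Setoid (E × Bool × Bool))
    (C : Quotient Y) :
    2 * ∑ e, (if C ∈ meets (AE e) Y then (1 : ℤ) else 0) ≤ wt a b Y C := by
  obtain ⟨x, rfl⟩ := Quotient.exists_rep C
  set C := Quotient.mk Y x with hC
  let J : Finset E := univ.filter fun e => C ∈ meets (AE e) Y
  have hx : x.1 ∈ J := by
    simp only [J, Finset.mem_filter, Finset.mem_univ, true_and]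
    exact ⟨x, rfl, rfl⟩
  have h1 : ∑ e, (if C ∈ meets (AE e) Y then (1 : ℤ) else 0) = J.card := by
    simp [J]
  have h2 : ∑ e, (if C ∈ meets (AE e) Y then (mulE a b e : ℤ) else 0) = ∑ e ∈ J, (mulE a b e : ℤ) := by
    simp only [J, Finset.sum_filter]
  have hV0 : ∀ u, (0 : ℤ) ≤ (if C ∈ meets (AA a b u) Y then (mulV a b u : ℤ) else 0) := by
    intro u; split_ifs <;> positivity
  have hVa : C ∈ meets (AA a b (a x.1)) Y := ⟨x, mem_AA.2 (Or.inl rfl), rfl⟩
  have hVb : C ∈ meets (AA a b (b x.1)) Y := ⟨x, mem_AA.2 (Or.inr rfl), rfl⟩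
  have h3 : (mulV a b (a x.1) : ℤ) + mulV a b (b x.1) ≤
      ∑ u, (if C ∈ meets (AA a b u) Y then (mulV a b u : ℤ) else 0) := by
    calc (mulV a b (a x.1) : ℤ) + mulV a b (b x.1)
        = ∑ u ∈ ({a x.1, b x.1} : Finset V),
          (if C ∈ meets (AA a b u) Y then (mulV a b u : ℤ) else 0) := by
          rw [Finset.sum_pair (hab _), if_pos hVa, if_pos hVb]
      _ ≤ _ := Finset.sum_le_sum_of_subset_of_nonneg (Finset.subset_univ _) (fun u _ _ => hV0 u)
  have hk := fun e => (mulE_add a b e)
  unfold wt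
  rw [h1, h2]
  by_cases hj : J.card = 1
  · obtain ⟨e, he⟩ := Finset.card_eq_one.1 hj
    have : x.1 = e := by rw [he] at hx; exact Finset.mem_singleton.1 hx
    subst this
    rw [he, Finset.sum_singleton, Finset.card_singleton]
    have h4 := (hk x.1).1
    push_cast
    have h5 : (mulE a b x.1 : ℤ) + mulV a b (a x.1) + mulV a b (b x.1) = kap E := by
      exact_mod_cast h4
    linarith
  · have hj2 : 2 ≤ J.card := by
      have : 0 < J.card := Finset.card_pos.2 ⟨_, hx⟩
      omega
    have h4 : (J.card : ℤ) * (kap E + 1) ≤ 2 * ∑ e ∈ J, (mulE a b e : ℤ) := by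
      rw [Finset.mul_sum]
      calc (J.card : ℤ) * (kap E + 1) = ∑ e ∈ J, ((kap E : ℤ) + 1) := by
            rw [Finset.sum_const, nsmul_eq_mul]
        _ ≤ _ := by
            apply Finset.sum_le_sum
            intro e _
            have := (hk e).2
            exact_mod_cast this
    have h5 : (0 : ℤ) ≤ ∑ u, (if C ∈ meets (AA a b u) Y then (mulV a b u : ℤ) else 0) :=
      Finset.sum_nonneg fun u _ => hV0 u
    have h6 : (2 : ℤ) ≤ J.card := by exact_mod_cast hj2
    have h7 : (1 : ℤ) ≤ kap E := by unfold kap; push_cast; linarith [Nat.zero_le (Fintype.card E)]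
    nlinarith [mul_nonneg (sub_nonneg.2 h6) (sub_nonneg.2 h7)]

/-- the number of groups of an edge, for a set `U` of vertices -/
def gr (a b : E → V) (U : Finset V) (e : E) : ℕ :=
  (if a e ∈ U then 1 else 2) * (if b e ∈ U then 1 else 2)

/-- the number of edges inside `U` -/
def inner (a b : E → V) (U : Finset V) : ℕ := (univ.filter fun e => a e ∈ U ∧ b e ∈ U).card

/-- the admissible bits -/
def bits (U : Finset V) (v : V) : Finset Bool := if v ∈ U then {true} else {true, false}

theorem card_bits (U : Finset V) (v : V) : (bits U v).card = if v ∈ U then 1 else 2 := by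
  unfold bits
  split_ifs <;> rfl

open Classical in
theorem nm_AE_ge (a b : E → V) (Y : Setoid (E × Bool × Bool)) (e : E) :
    gr a b (univ.filter (Lk a b Y)) e ≤ nm (AE e) Y := by
  set U := univ.filter (Lk a b Y) with hU
  have hcard : gr a b U e = (bits U (a e) ×ˢ bits U (b e)).card := by
    rw [Finset.card_product, card_bits, card_bits]; rfl
  rw [hcard]
  unfold nm
  rw [← Set.ncard_coe_finset]
  apply Set.ncard_le_ncard_of_injOn (fun p => Quotient.mk Y (e, p.1, p.2))
  · intro p _
    exact ⟨_, rfl, rfl⟩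
  · rintro ⟨s, t⟩ h1 ⟨s', t'⟩ h2 h3
    rw [Finset.mem_coe, Finset.mem_product] at h1 h2
    have hY : Y (e, s, t) (e, s', t') := Quotient.exact h3
    have hs : s = s' := by
      by_contra hne
      have hlk : Lk a b Y (a e) := by
        cases s <;> cases s'
        · exact absurd rfl hne
        · exact ⟨_, Or.inl ⟨rfl, rfl⟩, _, Or.inl ⟨rfl, rfl⟩, Y.symm hY⟩
        · exact ⟨_, Or.inl ⟨rfl, rfl⟩, _, Or.inl ⟨rfl, rfl⟩, hY⟩
        · exact absurd rfl hne
      have hmem : a e ∈ U := by simp [hU, hlk]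
      have h1' := h1.1
      have h2' := h2.1
      simp only [bits, if_pos hmem, Finset.mem_singleton] at h1' h2'
      exact hne (h1'.trans h2'.symm)
    have ht : t = t' := by
      by_contra hne
      have hlk : Lk a b Y (b e) := by
        cases t <;> cases t'
        · exact absurd rfl hne
        · exact ⟨_, Or.inr ⟨rfl, rfl⟩, _, Or.inr ⟨rfl, rfl⟩, Y.symm hY⟩
        · exact ⟨_, Or.inr ⟨rfl, rfl⟩, _, Or.inr ⟨rfl, rfl⟩, hY⟩
        · exact absurd rfl hne
      have hmem : b e ∈ U := by simp [hU, hlk]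
      have h1' := h1.2
      have h2' := h2.2
      simp only [bits, if_pos hmem, Finset.mem_singleton] at h1' h2'
      exact hne (h1'.trans h2'.symm)
    rw [hs, ht]

theorem sum_gr (a b : E → V) (hdeg : ∀ u, ∃ e, a e = u ∨ b e = u) (U : Finset V) :
    (∑ e, (gr a b U e : ℤ)) + ∑ u ∈ U, (mulV a b u : ℤ) =
      4 * Fintype.card E - U.card + inner a b U := by
  have h1 : ∀ u, (mulV a b u : ℤ) = 2 * deg a b u - 1 := by
    intro u
    have : 1 ≤ deg a b u := by
      obtain ⟨e, he | he⟩ := hdeg u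
      · have : 0 < (univ.filter fun e => a e = u).card := Finset.card_pos.2 ⟨e, by simp [he]⟩
        unfold deg; omega
      · have : 0 < (univ.filter fun e => b e = u).card := Finset.card_pos.2 ⟨e, by simp [he]⟩
        unfold deg; omega
    unfold mulV
    omega
  have h2 : ∑ u ∈ U, (deg a b u : ℤ) =
      ∑ e, ((if a e ∈ U then (1 : ℤ) else 0) + (if b e ∈ U then (1 : ℤ) else 0)) := by
    unfold deg
    push_cast
    rw [Finset.sum_add_distrib, Finset.sum_add_distrib]
    congr 1
    · have : ∀ u, (((univ.filter fun e => a e = u).card : ℕ) : ℤ) = ∑ e, if a e = u then (1 : ℤ) else 0 := by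
        intro u; simp
      simp only [this]
      rw [Finset.sum_comm]
      apply Finset.sum_congr rfl
      intro e _
      rw [Finset.sum_ite_eq]
    · have : ∀ u, (((univ.filter fun e => b e = u).card : ℕ) : ℤ) = ∑ e, if b e = u then (1 : ℤ) else 0 := by
        intro u; simp
      simp only [this]
      rw [Finset.sum_comm]
      apply Finset.sum_congr rfl
      intro e _
      rw [Finset.sum_ite_eq]
  have h3 : (inner a b U : ℤ) = ∑ e, (if a e ∈ U ∧ b e ∈ U then (1 : ℤ) else 0) := by
    unfold inner; simp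
  have h4 : (4 * Fintype.card E : ℤ) = ∑ _e : E, (4 : ℤ) := by
    simp; ring
  simp only [h1]
  rw [Finset.sum_sub_distrib, ← Finset.mul_sum, h2, h3, h4]
  simp only [Finset.sum_const, nsmul_eq_mul, mul_one]
  have h5 : ∑ e, (gr a b U e : ℤ) = ∑ _e : E, (4 : ℤ) -
      2 * ∑ e, ((if a e ∈ U then (1 : ℤ) else 0) + (if b e ∈ U then (1 : ℤ) else 0)) +
      ∑ e, (if a e ∈ U ∧ b e ∈ U then (1 : ℤ) else 0) := by
    rw [Finset.mul_sum, ← Finset.sum_sub_distrib, ← Finset.sum_add_distrib]
    apply Finset.sum_congr rfl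
    intro e _
    unfold gr
    by_cases h1 : a e ∈ U <;> by_cases h2 : b e ∈ U <;> simp [h1, h2]
  rw [h5]
  simp only [Finset.sum_const, nsmul_eq_mul]
  ring

open Classical in
/-- Lower bound for the cost of every partition. -/
theorem cost_lower (a b : E → V) (hab : ∀ e, a e ≠ b e) (hdeg : ∀ u, ∃ e, a e = u ∨ b e = u)
    [Nonempty E] (Y : Setoid (E × Bool × Bool)) :
    cst a b + 2 * (4 * Fintype.card E - (univ.filter (Lk a b Y)).card +
      inner a b (univ.filter (Lk a b Y))) ≤ (cost a b Y : ℤ) := by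
  set U := univ.filter (Lk a b Y) with hU
  have : Fintype (Quotient Y) := Fintype.ofFinite _
  rw [cost_eq a b hdeg Y, ← sum_gr a b hdeg U]
  have h1 : ∑ C : Quotient Y, 2 * ∑ e, (if C ∈ meets (AE e) Y then (1 : ℤ) else 0) ≤
      ∑ C : Quotient Y, wt a b Y C := Finset.sum_le_sum fun C _ => wt_ge a b hab Y C
  have h2 : ∑ C : Quotient Y, 2 * ∑ e, (if C ∈ meets (AE e) Y then (1 : ℤ) else 0) =
      2 * ∑ e, (nm (AE e) Y : ℤ) := by
    rw [← Finset.mul_sum, Finset.sum_comm]
    congr 1
    apply Finset.sum_congr rfl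
    intro e _
    unfold nm
    rw [Set.ncard_eq_toFinset_card']
    simp
  have h3 : ∑ e, (gr a b U e : ℤ) ≤ ∑ e, (nm (AE e) Y : ℤ) := by
    apply Finset.sum_le_sum
    intro e _
    exact_mod_cast nm_AE_ge a b Y e
  have h4 : ∑ u ∈ U, (mulV a b u : ℤ) = ∑ u, (if Lk a b Y u then (mulV a b u : ℤ) else 0) := by
    rw [hU, Finset.sum_filter]
  rw [h4]
  linarith

/-- the canonical code -/
def code (a b : E → V) (U : Finset V) (x : E × Bool × Bool) : E × Bool × Bool :=
  (x.1, if a x.1 ∈ U then true else x.2.1, if b x.1 ∈ U then true else x.2.2)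

/-- the canonical partition -/
def YU (a b : E → V) (U : Finset V) : Setoid (E × Bool × Bool) := Setoid.ker (code a b U)

theorem YU_rel {a b : E → V} {U : Finset V} {x y : E × Bool × Bool} :
    YU a b U x y ↔ code a b U x = code a b U y := Iff.rfl

theorem nc_YU_le (a b : E → V) (U : Finset V) : nc (YU a b U) ≤ ∑ e, gr a b U e := by
  classical
  have h1 : nc (YU a b U) = (Set.range (code a b U)).ncard := by
    unfold nc YU
    rw [Nat.card_congr (Setoid.quotientKerEquivRange (code a b U))]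
    rfl
  let F : Finset (Σ _ : E, Bool × Bool) := univ.sigma fun e => bits U (a e) ×ˢ bits U (b e)
  have hF : F.card = ∑ e, gr a b U e := by
    rw [Finset.card_sigma]
    apply Finset.sum_congr rfl
    intro e _
    rw [Finset.card_product, card_bits, card_bits]; rfl
  rw [h1, ← hF]
  have h2 : Set.range (code a b U) ⊆ ((F.image fun p => (p.1, p.2)) : Finset (E × Bool × Bool)) := by
    rintro _ ⟨x, rfl⟩
    rw [Finset.mem_coe, Finset.mem_image]
    refine ⟨⟨x.1, if a x.1 ∈ U then true else x.2.1, if b x.1 ∈ U then true else x.2.2⟩, ?_, rfl⟩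
    simp only [F, Finset.mem_sigma, Finset.mem_univ, true_and, Finset.mem_product]
    constructor
    · unfold bits
      split_ifs with h
      · simp
      · cases x.2.1 <;> simp
    · unfold bits
      split_ifs with h
      · simp
      · cases x.2.2 <;> simp
  calc (Set.range (code a b U)).ncard
      ≤ (((F.image fun p => (p.1, p.2)) : Finset (E × Bool × Bool)) : Set _).ncard :=
        Set.ncard_le_ncard h2
    _ = (F.image fun p => (p.1, p.2)).card := Set.ncard_coe_finset _
    _ ≤ F.card := Finset.card_image_le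

theorem wt_YU (a b : E → V) (hab : ∀ e, a e ≠ b e) (U : Finset V) (C : Quotient (YU a b U)) :
    wt a b (YU a b U) C = 2 := by
  classical
  obtain ⟨x, rfl⟩ := Quotient.exists_rep C
  have hE : ∀ e, Quotient.mk (YU a b U) x ∈ meets (AE e) (YU a b U) ↔ e = x.1 := by
    intro e
    constructor
    · rintro ⟨y, hy, hyx⟩
      have h1 : code a b U y = code a b U x := Quotient.exact hyx
      have h2 : (code a b U y).1 = (code a b U x).1 := by rw [h1]
      change y.1 = x.1 at h2
      have h3 : y.1 = e := hy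
      rw [← h3, h2]
    · rintro rfl
      exact ⟨x, rfl, rfl⟩
  have hV : ∀ u, Quotient.mk (YU a b U) x ∈ meets (AA a b u) (YU a b U) ↔
      (u = a x.1 ∨ u = b x.1) := by
    intro u
    constructor
    · rintro ⟨y, hy, hyx⟩
      have h1 : code a b U y = code a b U x := Quotient.exact hyx
      have h2 : (code a b U y).1 = (code a b U x).1 := by rw [h1]
      change y.1 = x.1 at h2
      rw [mem_AA, h2] at hy
      rcases hy with hy | hy
      · exact Or.inl hy.symm
      · exact Or.inr hy.symm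
    · rintro (rfl | rfl)
      · exact ⟨x, mem_AA.2 (Or.inl rfl), rfl⟩
      · exact ⟨x, mem_AA.2 (Or.inr rfl), rfl⟩
  unfold wt
  have h1 : ∑ e, (if Quotient.mk (YU a b U) x ∈ meets (AE e) (YU a b U) then
      (mulE a b e : ℤ) else 0) = mulE a b x.1 := by
    simp only [hE]
    simp
  have h2 : ∑ u, (if Quotient.mk (YU a b U) x ∈ meets (AA a b u) (YU a b U) then
      (mulV a b u : ℤ) else 0) = mulV a b (a x.1) + mulV a b (b x.1) := by
    simp only [hV]
    have : ∀ u, (if u = a x.1 ∨ u = b x.1 then (mulV a b u : ℤ) else 0) =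
        (if u = a x.1 then (mulV a b u : ℤ) else 0) + (if u = b x.1 then (mulV a b u : ℤ) else 0) := by
      intro u
      by_cases h1 : u = a x.1
      · have h2 : u ≠ b x.1 := by rw [h1]; exact hab _
        simp [h1, hab x.1]
      · simp [h1]
    simp only [this, Finset.sum_add_distrib, Finset.sum_ite_eq', Finset.mem_univ, if_true]
  rw [h1, h2]
  have h3 := (mulE_add a b x.1).1
  have h4 : (mulE a b x.1 : ℤ) + mulV a b (a x.1) + mulV a b (b x.1) = kap E := by
    exact_mod_cast h3
  linarith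

theorem Lk_YU (a b : E → V) (hab : ∀ e, a e ≠ b e) (U : Finset V) (u : V)
    (h : Lk a b (YU a b U) u) : u ∈ U := by
  obtain ⟨x, hx, y, hy, hxy⟩ := h
  have h1 : code a b U x = code a b U y := hxy
  have h2 : (code a b U x).1 = (code a b U y).1 := by rw [h1]
  change x.1 = y.1 at h2
  have h3 : (if a x.1 ∈ U then true else x.2.1) = (if a y.1 ∈ U then true else y.2.1) :=
    congrArg (fun z => z.2.1) h1
  have h4 : (if b x.1 ∈ U then true else x.2.2) = (if b y.1 ∈ U then true else y.2.2) :=
    congrArg (fun z => z.2.2) h1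
  rw [← h2] at h3 h4
  rcases hx with ⟨hx1, hx2⟩ | ⟨hx1, hx2⟩
  · rcases hy with ⟨hy1, hy2⟩ | ⟨hy1, hy2⟩
    · by_contra hu
      rw [hx1, if_neg hu, if_neg hu, hx2, hy2] at h3
      cases h3
    · rw [← h2] at hy1
      exact absurd (hx1.trans hy1.symm) (hab _)
  · rcases hy with ⟨hy1, hy2⟩ | ⟨hy1, hy2⟩
    · rw [← h2] at hy1
      exact absurd (hy1.trans hx1.symm) (hab _)
    · by_contra hu
      rw [hx1, if_neg hu, if_neg hu, hx2, hy2] at h4
      cases h4

/-- Upper bound for the cost of the canonical partitions. -/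
theorem cost_upper (a b : E → V) (hab : ∀ e, a e ≠ b e) (hdeg : ∀ u, ∃ e, a e = u ∨ b e = u)
    [Nonempty E] (U : Finset V) :
    (cost a b (YU a b U) : ℤ) ≤ cst a b + 2 * (4 * Fintype.card E - U.card + inner a b U) := by
  classical
  have : Fintype (Quotient (YU a b U)) := Fintype.ofFinite _
  rw [cost_eq a b hdeg (YU a b U), ← sum_gr a b hdeg U]
  have h1 : ∑ C : Quotient (YU a b U), wt a b (YU a b U) C = 2 * nc (YU a b U) := by
    simp only [wt_YU a b hab U]
    unfold nc
    rw [Nat.card_eq_fintype_card]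
    simp; ring
  have h2 : (nc (YU a b U) : ℤ) ≤ ∑ e, (gr a b U e : ℤ) := by
    exact_mod_cast nc_YU_le a b U
  have h3 : ∑ u, (if Lk a b (YU a b U) u then (mulV a b u : ℤ) else 0) ≤
      ∑ u ∈ U, (mulV a b u : ℤ) := by
    rw [← Finset.sum_filter]
    apply Finset.sum_le_sum_of_subset_of_nonneg
    · intro u hu
      exact Lk_YU a b hab U u (Finset.mem_filter.1 hu).2
    · intro _ _ _; positivity
  rw [h1]
  linarith

theorem YU_empty (a b : E → V) : YU a b ∅ = ⊥ := by
  ext x y
  change code a b ∅ x = code a b ∅ y ↔ x = y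
  simp [code]

open Classical in
theorem cost_bot (a b : E → V) (hab : ∀ e, a e ≠ b e) (hdeg : ∀ u, ∃ e, a e = u ∨ b e = u)
    [Nonempty E] : (cost a b ⊥ : ℤ) = cst a b + 8 * Fintype.card E := by
  have h1 := cost_upper a b hab hdeg ∅
  have h2 := cost_lower a b hab hdeg (YU a b ∅)
  have h3 : univ.filter (Lk a b (YU a b ∅)) = ∅ := by
    rw [Finset.filter_eq_empty_iff]
    intro u _ h
    exact absurd (Lk_YU a b hab ∅ u h) (Finset.notMem_empty u)
  rw [h3] at h2
  rw [YU_empty] at h1 h2
  simp [inner] at h1 h2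
  linarith

/-- From a set of vertices one gets an independent one by deleting one end of every edge inside. -/
theorem exists_indep (a b : E → V) (U : Finset V) :
    ∃ W ⊆ U, (∀ e, ¬ (a e ∈ W ∧ b e ∈ W)) ∧ U.card ≤ W.card + inner a b U := by
  classical
  let D : Finset V := (univ.filter fun e => a e ∈ U ∧ b e ∈ U).image a
  refine ⟨U \ D, Finset.sdiff_subset, ?_, ?_⟩
  · rintro e ⟨h1, h2⟩
    rw [Finset.mem_sdiff] at h1 h2
    apply h1.2
    exact Finset.mem_image.2 ⟨e, by simp [h1.1, h2.1], rfl⟩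
  · have h1 : D.card ≤ inner a b U := Finset.card_image_le
    have h2 : U.card ≤ (U \ D).card + D.card := by
      exact Finset.card_le_card_sdiff_add_card
    omega

/-- The main equivalence: the largest saving over the discrete partition is twice the
independence number. -/
theorem median_iff (a b : E → V) (hab : ∀ e, a e ≠ b e) (hdeg : ∀ u, ∃ e, a e = u ∨ b e = u)
    [Nonempty E] (j : ℕ) :
    (∃ W : Finset V, (∀ e, ¬ (a e ∈ W ∧ b e ∈ W)) ∧ j ≤ W.card) ↔
      ∃ Y, cost a b Y + 2 * j ≤ cost a b ⊥ := by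
  classical
  have hbot := cost_bot a b hab hdeg
  constructor
  · rintro ⟨W, hW, hj⟩
    refine ⟨YU a b W, ?_⟩
    have h1 := cost_upper a b hab hdeg W
    have h2 : inner a b W = 0 := by
      unfold inner
      rw [Finset.card_eq_zero, Finset.filter_eq_empty_iff]
      intro e _
      exact hW e
    rw [h2] at h1
    push_cast at h1
    have : (cost a b (YU a b W) : ℤ) + 2 * j ≤ cost a b ⊥ := by
      rw [hbot]
      have : (j : ℤ) ≤ W.card := by exact_mod_cast hj
      linarith
    exact_mod_cast this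
  · rintro ⟨Y, hY⟩
    have h1 := cost_lower a b hab hdeg Y
    obtain ⟨W, -, hW, hc⟩ := exists_indep a b (univ.filter (Lk a b Y))
    refine ⟨W, hW, ?_⟩
    have h2 : (cost a b Y : ℤ) + 2 * j ≤ cost a b ⊥ := by exact_mod_cast hY
    rw [hbot] at h2
    have h3 : (((univ.filter (Lk a b Y)).card : ℕ) : ℤ) ≤ W.card + inner a b (univ.filter (Lk a b Y)) := by
      exact_mod_cast hc
    have : (j : ℤ) ≤ W.card := by linarith
    exact_mod_cast this

end Gadget

end Pool.Agent.LibPartitionMedian
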