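import Pool.Agent.LibPartitionMedian.Lists
import Pool.Agent.LibComplexity.Encode

/-!
NP-hardness of the partition median problem.
-/

namespace Pool.Agent.LibPartitionMedian

open Finset Pool.Agent.LibComplexity Enc

/-! ### The graph of a formula -/

/-- occurrences of literals: number of the clause, and literal -/
def occ (φ : CNF Vr) : List (ℕ × Vr × Bool) :=
  (List.range φ.length).flatMap fun i => (φ.getD i []).map fun l => (i, l)

/-- default occurrence -/
def occ0 : ℕ × Vr × Bool := (0, (0, 0, 0, 0, false), false)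

/-- the occurrence number `p` -/
def oc (φ : CNF Vr) (p : ℕ) : ℕ × Vr × Bool := (occ φ).getD p occ0

/-- two occurrences are in the same clause or contradict each other -/
def confl (o o' : ℕ × Vr × Bool) : Bool :=
  decide (o.1 = o'.1) || (decide (o.2.1 = o'.2.1) && !decide (o.2.2 = o'.2.2))

/-- the edges of the graph of a formula: the vertices are the occurrences and one more vertex
adjacent to all others -/
def edges (φ : CNF Vr) : List (ℕ × ℕ) :=
  (List.range ((occ φ).length + 1)).flatMap fun q =>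
    ((List.range q).filter fun p => decide (q = (occ φ).length) || confl (oc φ p) (oc φ q)).map
      fun p => (p, q)

theorem mem_edges {φ : CNF Vr} {p q : ℕ} : (p, q) ∈ edges φ ↔
    p < q ∧ q ≤ (occ φ).length ∧ (q = (occ φ).length ∨ confl (oc φ p) (oc φ q) = true) := by
  unfold edges
  simp only [List.mem_flatMap, List.mem_range, List.mem_map, List.mem_filter, Prod.mk.injEq,
    Bool.or_eq_true, decide_eq_true_eq]
  constructor
  · rintro ⟨q', h1, p', ⟨h2, h3⟩, rfl, rfl⟩
    exact ⟨h2, by omega, h3⟩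
  · rintro ⟨h1, h2, h3⟩
    exact ⟨q, by omega, p, ⟨h1, h3⟩, rfl, rfl⟩

theorem edges_fst {φ : CNF Vr} : ∀ p ∈ edges φ, p.1 < (occ φ).length + 1 := by
  rintro ⟨p, q⟩ h
  have := mem_edges.1 h
  show p < _
  omega

theorem edges_snd {φ : CNF Vr} : ∀ p ∈ edges φ, p.2 < (occ φ).length + 1 := by
  rintro ⟨p, q⟩ h
  have := mem_edges.1 h
  show q < _
  omega

theorem edge_mem {es : List (ℕ × ℕ)} (e : Fin es.length) : (fstE es e, sndE es e) ∈ es := by
  unfold fstE sndE
  rw [List.getD_eq_getElem?_getD, List.getElem?_eq_getElem e.2]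
  exact List.getElem_mem e.2

theorem mem_edge {es : List (ℕ × ℕ)} {p q : ℕ} (h : (p, q) ∈ es) :
    ∃ e : Fin es.length, fstE es e = p ∧ sndE es e = q := by
  obtain ⟨i, hi, he⟩ := List.getElem_of_mem h
  refine ⟨⟨i, hi⟩, ?_, ?_⟩
  · unfold fstE
    rw [List.getD_eq_getElem?_getD, List.getElem?_eq_getElem hi, Option.getD_some, he]
  · unfold sndE
    rw [List.getD_eq_getElem?_getD, List.getElem?_eq_getElem hi, Option.getD_some, he]

variable (φ : CNF Vr)

/-- first end -/
noncomputable abbrev ea : Fin (edges φ).length → Fin ((occ φ).length + 1) := fa edges_fst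

/-- second end -/
noncomputable abbrev eb : Fin (edges φ).length → Fin ((occ φ).length + 1) := fb edges_snd

theorem ea_ne_eb (e : Fin (edges φ).length) : ea φ e ≠ eb φ e := by
  intro h
  have h1 := (mem_edges.1 (edge_mem e)).1
  have h2 : fstE (edges φ) e = sndE (edges φ) e := congrArg Fin.val h
  omega

theorem hdeg (hn : 1 ≤ (occ φ).length) (u : Fin ((occ φ).length + 1)) :
    ∃ e, ea φ e = u ∨ eb φ e = u := by
  by_cases hu : (u : ℕ) = (occ φ).length
  · obtain ⟨e, -, he⟩ := mem_edge (mem_edges.2 ⟨(by omega : 0 < (occ φ).length), le_rfl, Or.inl rfl⟩)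
    exact ⟨e, Or.inr (Fin.ext (by rw [fb_val, he, hu]))⟩
  · obtain ⟨e, he, -⟩ := mem_edge (mem_edges.2 ⟨(by have := u.2; omega : (u : ℕ) < (occ φ).length),
      le_rfl, Or.inl rfl⟩)
    exact ⟨e, Or.inl (Fin.ext (by rw [fa_val, he]))⟩

theorem nonempty_edges (hn : 1 ≤ (occ φ).length) : Nonempty (Fin (edges φ).length) := by
  obtain ⟨e, -⟩ := hdeg φ hn 0
  exact ⟨e⟩

theorem oc_mem {p : ℕ} (hp : p < (occ φ).length) : oc φ p ∈ occ φ := by
  unfold oc
  rw [List.getD_eq_getElem?_getD, List.getElem?_eq_getElem hp]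
  exact List.getElem_mem hp

theorem mem_occ {o : ℕ × Vr × Bool} : o ∈ occ φ ↔ o.1 < φ.length ∧ o.2 ∈ φ.getD o.1 [] := by
  unfold occ
  simp only [List.mem_flatMap, List.mem_range, List.mem_map]
  constructor
  · rintro ⟨i, hi, l, hl, rfl⟩
    exact ⟨hi, hl⟩
  · rintro ⟨h1, h2⟩
    exact ⟨o.1, h1, o.2, h2, rfl⟩

theorem sat_iff (hM : 2 ≤ φ.length) (hn : 1 ≤ (occ φ).length) :
    Sat φ ↔ ∃ W : Finset (Fin ((occ φ).length + 1)),
      (∀ e, ¬ (ea φ e ∈ W ∧ eb φ e ∈ W)) ∧ φ.length ≤ W.card := by
  classical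
  constructor
  · rintro ⟨a, ha⟩
    -- an occurrence of a true literal in each clause
    have hex : ∀ i : Fin φ.length, ∃ p : Fin ((occ φ).length + 1), (p : ℕ) < (occ φ).length ∧
        (oc φ p).1 = i ∧ a (oc φ p).2.1 = (oc φ p).2.2 := by
      intro i
      obtain ⟨l, hl, hal⟩ := ha φ[i] (List.getElem_mem i.2)
      have h1 : ((i : ℕ), l) ∈ occ φ := by
        rw [mem_occ]
        refine ⟨i.2, ?_⟩
        rw [List.getD_eq_getElem?_getD, List.getElem?_eq_getElem i.2]
        exact hl
      obtain ⟨p, hp, he⟩ := List.getElem_of_mem h1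
      have h2 : oc φ p = ((i : ℕ), l) := by
        unfold oc
        rw [List.getD_eq_getElem?_getD, List.getElem?_eq_getElem hp, Option.getD_some, he]
      refine ⟨⟨p, by omega⟩, hp, ?_, ?_⟩
      · rw [h2]
      · rw [h2]; exact hal
    choose P hP1 hP2 hP3 using hex
    have hinj : Function.Injective P := by
      intro i j hij
      apply Fin.ext
      rw [← hP2 i, ← hP2 j, hij]
    refine ⟨univ.image P, ?_, ?_⟩
    · rintro e ⟨h1, h2⟩
      obtain ⟨i, -, hi⟩ := Finset.mem_image.1 h1
      obtain ⟨j, -, hj⟩ := Finset.mem_image.1 h2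
      obtain ⟨h3, h4, h5⟩ := mem_edges.1 (edge_mem e)
      have e1 : fstE (edges φ) e = (P i : ℕ) := by rw [hi]; rfl
      have e2 : sndE (edges φ) e = (P j : ℕ) := by rw [hj]; rfl
      rw [e1, e2] at h3 h5
      rcases h5 with h5 | h5
      · have := hP1 j
        omega
      · unfold confl at h5
        simp only [Bool.or_eq_true, decide_eq_true_eq, Bool.and_eq_true, Bool.not_eq_true',
          decide_eq_false_iff_not] at h5
        rcases h5 with h5 | ⟨h5, h6⟩
        · rw [hP2, hP2] at h5
          rw [Fin.ext h5] at h3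
          omega
        · apply h6
          rw [← hP3 i, ← hP3 j, h5]
    · rw [Finset.card_image_of_injective _ hinj, Finset.card_univ, Fintype.card_fin]
  · rintro ⟨W, hW, hc⟩
    have hW' : ∀ p ∈ W, ∀ q ∈ W, (p : ℕ) < q → (q : ℕ) ≠ (occ φ).length ∧
        confl (oc φ p) (oc φ q) = false := by
      intro p hp q hq hpq
      by_contra hcon
      have h1 : ((p : ℕ), (q : ℕ)) ∈ edges φ := by
        rw [mem_edges]
        refine ⟨hpq, by have := q.2; omega, ?_⟩
        by_contra h2
        push Not at h2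
        exact hcon ⟨h2.1, by simpa using h2.2⟩
      obtain ⟨e, he1, he2⟩ := mem_edge h1
      refine hW e ⟨?_, ?_⟩
      · rwa [show ea φ e = p from Fin.ext he1]
      · rwa [show eb φ e = q from Fin.ext he2]
    have hlast : ∀ p ∈ W, (p : ℕ) < (occ φ).length := by
      intro p hp
      by_contra hlt
      have hp' : (p : ℕ) = (occ φ).length := by have := p.2; omega
      have h1 : 1 < W.card := by omega
      obtain ⟨q, hq, hqp⟩ := Finset.exists_mem_ne h1 p
      have hq' : (q : ℕ) < p := by
        have := q.2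
        have : (q : ℕ) ≠ p := fun h => hqp (Fin.ext h)
        omega
      exact (hW' q hq p hp hq').1 hp'
    have hsame : ∀ p ∈ W, ∀ q ∈ W, (oc φ p).1 = (oc φ q).1 → p = q := by
      intro p hp q hq h
      by_contra hne
      rcases lt_or_gt_of_ne (fun h' => hne (Fin.ext h') : (p : ℕ) ≠ q) with hlt | hlt
      · have := (hW' p hp q hq hlt).2
        simp [confl, h] at this
      · have := (hW' q hq p hp hlt).2
        simp [confl, h] at this
    have hvar : ∀ p ∈ W, ∀ q ∈ W, (oc φ p).2.1 = (oc φ q).2.1 → (oc φ p).2.2 = (oc φ q).2.2 := by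
      intro p hp q hq h
      by_contra hne
      have hpq : (p : ℕ) ≠ q := by
        intro h'
        rw [h'] at hne
        exact hne rfl
      rcases lt_or_gt_of_ne hpq with hlt | hlt
      · have := (hW' p hp q hq hlt).2
        simp [confl, h, hne] at this
      · have := (hW' q hq p hp hlt).2
        simp [confl, h, Ne.symm hne] at this
    have himg : W.image (fun p : Fin ((occ φ).length + 1) => (oc φ p).1) = Finset.range φ.length := by
      apply Finset.eq_of_subset_of_card_le
      · intro i hi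
        obtain ⟨p, hp, rfl⟩ := Finset.mem_image.1 hi
        rw [Finset.mem_range]
        exact ((mem_occ φ).1 (oc_mem φ (hlast p hp))).1
      · rw [Finset.card_range, Finset.card_image_of_injOn]
        · exact hc
        · intro p hp q hq h
          exact hsame p hp q hq h
    refine ⟨fun v => decide (∃ p ∈ W, oc φ p = ((oc φ p).1, v, true)), fun c hc => ?_⟩
    obtain ⟨i, hi, rfl⟩ := List.getElem_of_mem hc
    have h1 : i ∈ W.image (fun p : Fin ((occ φ).length + 1) => (oc φ p).1) := by rw [himg, Finset.mem_range]; exact hi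
    obtain ⟨p, hp, hpi⟩ := Finset.mem_image.1 h1
    have h2 := ((mem_occ φ).1 (oc_mem φ (hlast p hp))).2
    rw [hpi, List.getD_eq_getElem?_getD, List.getElem?_eq_getElem hi] at h2
    refine ⟨_, h2, ?_⟩
    cases hb : (oc φ p).2.2 with
    | true =>
      rw [decide_eq_true_eq]
      refine ⟨p, hp, ?_⟩
      rw [← hb]
    | false =>
      rw [decide_eq_false_iff_not]
      rintro ⟨q, hq, hq'⟩
      have h3 : (oc φ q).2.1 = (oc φ p).2.1 := by rw [hq']
      have h4 : (oc φ q).2.2 = true := by rw [hq']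
      have h5 := hvar q hq p hp h3
      rw [h4, hb] at h5
      cases h5

/-! ### From partitions to numbers -/

/-- membership in a class of a vertex -/
def inV (es : List (ℕ × ℕ)) (u : ℕ) (r : Bool) (x : ℕ × Bool × Bool) : Bool :=
  (decide (fstE es x.1 = u) && (x.2.1 == r)) || (decide (sndE es x.1 = u) && (x.2.2 == r))

/-- the vertex is linked in the partition given by the labels `Y` -/
def lnk (es : List (ℕ × ℕ)) (Y : List ℕ) (u : ℕ) : Bool :=
  (elts es.length).any fun x => (elts es.length).any fun y =>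
    inV es u true x && (inV es u false y && decide (Y.getD (idx x) 0 = Y.getD (idx y) 0))

/-- number of linked vertices -/
def cntU (N : ℕ) (es : List (ℕ × ℕ)) (Y : List ℕ) : ℕ :=
  ((List.range N).map fun u => if lnk es Y u = true then 1 else 0).sum

/-- number of edges with both ends linked -/
def cntE (es : List (ℕ × ℕ)) (Y : List ℕ) : ℕ :=
  ((List.range es.length).map fun e =>
    if (lnk es Y (fstE es e) = true ∧ lnk es Y (sndE es e) = true) then 1 else 0).sum

theorem mem_elts {m : ℕ} {x : ℕ × Bool × Bool} : x ∈ elts m ↔ x.1 < m := by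
  unfold elts
  obtain ⟨e, s, t⟩ := x
  simp only [List.mem_flatMap, List.mem_range, List.mem_cons, Prod.mk.injEq, List.not_mem_nil,
    or_false]
  constructor
  · rintro ⟨i, hi, (⟨rfl, -⟩ | ⟨rfl, -⟩ | ⟨rfl, -⟩ | ⟨rfl, -⟩)⟩ <;> exact hi
  · intro h
    refine ⟨e, h, ?_⟩
    cases s <;> cases t <;> simp

section

variable {N : ℕ} {es : List (ℕ × ℕ)} (ha : ∀ p ∈ es, p.1 < N) (hb : ∀ p ∈ es, p.2 < N)

theorem Lk_iff (Y : List ℕ) (u : Fin N) :
    Lk (fa ha) (fb hb) ((lab (4 * es.length) Y).comap (psi es.length)) u ↔ lnk es Y u = true := by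
  have hmem : ∀ (z : Fin es.length × Bool × Bool) (r : Bool), z ∈ AV (fa ha) (fb hb) u r ↔
      inV es u r ((z.1 : ℕ), z.2.1, z.2.2) = true := by
    intro z r
    unfold AV inV
    rw [Set.mem_ofPred_eq, fa_eq, fb_eq]
    simp
  unfold Lk Linked lnk
  simp only [List.any_eq_true, Bool.and_eq_true, decide_eq_true_eq, hmem]
  constructor
  · rintro ⟨x, hx, y, hy, hxy⟩
    exact ⟨((x.1 : ℕ), x.2.1, x.2.2), mem_elts.2 x.1.2, ((y.1 : ℕ), y.2.1, y.2.2),
      mem_elts.2 y.1.2, hx, hy, hxy⟩
  · rintro ⟨x, hx, y, hy, h1, h2, h3⟩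
    exact ⟨(⟨x.1, mem_elts.1 hx⟩, x.2.1, x.2.2), h1, (⟨y.1, mem_elts.1 hy⟩, y.2.1, y.2.2), h2, h3⟩

open Classical in
theorem cntU_eq (Y : List ℕ) : cntU N es Y = (univ.filter
    (Lk (fa ha) (fb hb) ((lab (4 * es.length) Y).comap (psi es.length)))).card := by
  unfold cntU
  rw [sum_range_fin, Finset.card_filter]
  simp only [Lk_iff]

open Classical in
theorem cntE_eq (Y : List ℕ) : cntE es Y = inner (fa ha) (fb hb) (univ.filter
    (Lk (fa ha) (fb hb) ((lab (4 * es.length) Y).comap (psi es.length)))) := by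
  unfold cntE inner
  rw [sum_range_fin, Finset.card_filter]
  simp only [Finset.mem_filter, Finset.mem_univ, true_and, Lk_iff, fa_val, fb_val]

/-- From an optimal partition one reads off the independence number. -/
theorem opt_iff (hab : ∀ e, fa ha e ≠ fb hb e) (hdeg : ∀ u, ∃ e, fa ha e = u ∨ fb hb e = u)
    [Nonempty (Fin es.length)] (Y : List ℕ)
    (hY : ∀ Z : Setoid (Fin (4 * es.length)),
      total ((instL N es).map (lab (4 * es.length))) (lab (4 * es.length) Y) ≤
      total ((instL N es).map (lab (4 * es.length))) Z) (j : ℕ) :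
    (∃ W : Finset (Fin N), (∀ e, ¬ (fa ha e ∈ W ∧ fb hb e ∈ W)) ∧ j ≤ W.card) ↔
      j + cntE es Y ≤ cntU N es Y := by
  classical
  rw [cntU_eq ha hb, cntE_eq ha hb]
  set Y' := (lab (4 * es.length) Y).comap (psi es.length) with hY'
  have h1 := cost_lower (fa ha) (fb hb) hab hdeg Y'
  constructor
  · rintro ⟨W, hW, hj⟩
    have h2 := cost_upper (fa ha) (fb hb) hab hdeg W
    have h3 : inner (fa ha) (fb hb) W = 0 := by
      unfold inner
      rw [Finset.card_eq_zero, Finset.filter_eq_empty_iff]
      intro e _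
      exact hW e
    rw [h3] at h2
    push_cast at h2
    let Z : Setoid (Fin (4 * es.length)) := (YU (fa ha) (fb hb) W).comap (psi es.length).symm
    have hZ : Z.comap (psi es.length) = YU (fa ha) (fb hb) W :=
      (comapIso (psi es.length)).right_inv _
    have h4 := hY Z
    rw [total_instL ha hb hab, total_instL ha hb hab, hZ, ← hY'] at h4
    have h5 : (cost (fa ha) (fb hb) Y' : ℤ) ≤ cost (fa ha) (fb hb) (YU (fa ha) (fb hb) W) := by
      exact_mod_cast h4
    have h6 : (j : ℤ) ≤ W.card := by exact_mod_cast hj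
    have h7 : (j : ℤ) + inner (fa ha) (fb hb) (univ.filter (Lk (fa ha) (fb hb) Y')) ≤
        (univ.filter (Lk (fa ha) (fb hb) Y')).card := by linarith
    exact_mod_cast h7
  · intro h
    obtain ⟨W, -, hW, hc⟩ := exists_indep (fa ha) (fb hb) (univ.filter (Lk (fa ha) (fb hb) Y'))
    exact ⟨W, hW, by omega⟩

end

end Pool.Agent.LibPartitionMedian
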