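import Pool.Agent.LibPartitionMedian.Gadget

/-!
The instances of the partition median problem as lists of lists of labels.
-/

namespace Pool.Agent.LibPartitionMedian

open Finset

/-- The total distance of `Y` to the partitions in a list. -/
noncomputable def total {S : Type} (L : List (Setoid S)) (Y : Setoid S) : ℕ :=
  (L.map fun X => pdist X Y).sum

theorem total_append {S : Type} (L M : List (Setoid S)) (Y : Setoid S) :
    total (L ++ M) Y = total L Y + total M Y := by
  unfold total
  rw [List.map_append, List.sum_append]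

theorem total_replicate {S : Type} (n : ℕ) (X Y : Setoid S) :
    total (List.replicate n X) Y = n * pdist X Y := by
  unfold total
  rw [List.map_replicate, List.sum_replicate, smul_eq_mul]

theorem total_flatMap {S ι : Type} (l : List ι) (n : ι → ℕ) (X : ι → Setoid S) (Y : Setoid S) :
    total (l.flatMap fun i => List.replicate (n i) (X i)) Y =
      (l.map fun i => n i * pdist (X i) Y).sum := by
  induction l with
  | nil => rfl
  | cons i l ih => rw [List.flatMap_cons, total_append, total_replicate, ih, List.map_cons,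
      List.sum_cons]

/-- At most two classes have more than one element. -/
def AtMostTwoBig {S : Type} (X : Setoid S) : Prop :=
  {A : Set S | A ∈ X.classes ∧ A.Nontrivial}.ncard ≤ 2

/-! ### Transport along a bijection -/

section Transport

variable {S S' : Type}

/-- relabelling the ground set -/
def comapIso (ψ : S ≃ S') : Setoid S' ≃o Setoid S where
  toFun X := X.comap ψ
  invFun Y := Y.comap ψ.symm
  left_inv X := by
    ext x y
    show X (ψ (ψ.symm x)) (ψ (ψ.symm y)) ↔ X x y
    rw [ψ.apply_symm_apply, ψ.apply_symm_apply]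
  right_inv Y := by
    ext x y
    show Y (ψ.symm (ψ x)) (ψ.symm (ψ y)) ↔ Y x y
    rw [ψ.symm_apply_apply, ψ.symm_apply_apply]
  map_rel_iff' := by
    intro X Y
    constructor
    · intro h x y hxy
      have h1 : X (ψ (ψ.symm x)) (ψ (ψ.symm y)) := by
        rwa [ψ.apply_symm_apply, ψ.apply_symm_apply]
      have h2 : Y (ψ (ψ.symm x)) (ψ (ψ.symm y)) := h h1
      rwa [ψ.apply_symm_apply, ψ.apply_symm_apply] at h2
    · intro h x y hxy
      exact h hxy

theorem nc_comap (ψ : S ≃ S') (X : Setoid S') : nc (X.comap ψ) = nc X :=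
  Nat.card_congr (Quotient.congr ψ (fun _ _ => Iff.rfl))

theorem pdist_comap [Finite S] [Finite S'] (ψ : S ≃ S') (X Y : Setoid S') :
    pdist (X.comap ψ) (Y.comap ψ) = pdist X Y := by
  have h1 := pdist_formula X Y
  have h2 := pdist_formula (X.comap ψ) (Y.comap ψ)
  have h3 : (X ⊔ Y).comap ψ = X.comap ψ ⊔ Y.comap ψ := (comapIso ψ).map_sup X Y
  rw [← h3, nc_comap, nc_comap, nc_comap] at h2
  omega

theorem total_comap [Finite S] [Finite S'] (ψ : S ≃ S') (L : List (Setoid S')) (Y : Setoid S') :
    total (L.map fun X => X.comap ψ) (Y.comap ψ) = total L Y := by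
  unfold total
  rw [List.map_map]
  congr 1
  apply List.map_congr_left
  intro X _
  exact pdist_comap ψ X Y

end Transport

/-! ### Partitions given by lists of labels -/

/-- The partition of `{0, ..., n-1}` given by a list of labels. -/
def lab (n : ℕ) (l : List ℕ) : Setoid (Fin n) := Setoid.ker fun i => l.getD i 0

/-- number of an element -/
def idx (x : ℕ × Bool × Bool) : ℕ := 4 * x.1 + (if x.2.1 = true then 2 else 0) +
  (if x.2.2 = true then 1 else 0)

/-- the elements in their order -/
def elts (m : ℕ) : List (ℕ × Bool × Bool) :=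
  (List.range m).flatMap fun e => [(e, false, false), (e, false, true), (e, true, false),
    (e, true, true)]

theorem elts_succ (m : ℕ) : elts (m + 1) = elts m ++ [(m, false, false), (m, false, true),
    (m, true, false), (m, true, true)] := by
  unfold elts
  rw [List.range_succ, List.flatMap_append]
  simp

theorem length_elts (m : ℕ) : (elts m).length = 4 * m := by
  induction m with
  | zero => rfl
  | succ m ih => rw [elts_succ, List.length_append, ih]; simp; ring

theorem elts_idx {m : ℕ} {x : ℕ × Bool × Bool} (hx : x.1 < m) : (elts m)[idx x]? = some x := by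
  induction m with
  | zero => omega
  | succ m ih =>
    rw [elts_succ]
    obtain ⟨e, s, t⟩ := x
    simp only at hx
    by_cases h : e < m
    · rw [List.getElem?_append_left, ih h]
      rw [length_elts]
      unfold idx
      split_ifs <;> simp only <;> omega
    · obtain rfl : e = m := by omega
      rw [List.getElem?_append_right, length_elts]
      · unfold idx
        have h1 : 4 * e + 3 - 4 * e = 3 := by omega
        cases s <;> cases t <;> simp [add_assoc, h1]
      · rw [length_elts]
        unfold idx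
        simp only
        omega

/-- the bijection between elements and numbers -/
noncomputable def psi (m : ℕ) : (Fin m × Bool × Bool) ≃ Fin (4 * m) :=
  Equiv.ofBijective (fun x => ⟨idx ((x.1 : ℕ), x.2.1, x.2.2), by
    obtain ⟨e, s, t⟩ := x
    have := e.2
    unfold idx
    split_ifs <;> simp only <;> omega⟩) (by
    rw [Fintype.bijective_iff_injective_and_card]
    constructor
    · rintro ⟨e, s, t⟩ ⟨e', s', t'⟩ h
      have h1 : idx ((e : ℕ), s, t) = idx ((e' : ℕ), s', t') := congrArg Fin.val h
      unfold idx at h1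
      simp only at h1
      have h2 : (e : ℕ) = e' ∧ s = s' ∧ t = t' := by
        cases s <;> cases s' <;> cases t <;> cases t' <;>
          simp only [Bool.false_eq_true, if_true, if_false, and_true, reduceCtorEq, and_false,
            true_and, false_and] at h1 ⊢ <;> omega
      obtain ⟨h3, rfl, rfl⟩ := h2
      rw [Fin.ext h3]
    · simp [Fintype.card_prod]; ring)

theorem psi_val {m : ℕ} (x : Fin m × Bool × Bool) :
    ((psi m x : Fin (4 * m)) : ℕ) = idx ((x.1 : ℕ), x.2.1, x.2.2) := rfl

theorem comap_lab {m : ℕ} (g : ℕ × Bool × Bool → ℕ) :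
    (lab (4 * m) ((elts m).map g)).comap (psi m) =
      Setoid.ker fun x : Fin m × Bool × Bool => g ((x.1 : ℕ), x.2.1, x.2.2) := by
  have key : ∀ x : Fin m × Bool × Bool, ((elts m).map g).getD (psi m x : Fin (4 * m)) 0 =
      g ((x.1 : ℕ), x.2.1, x.2.2) := by
    intro x
    rw [psi_val, List.getD_eq_getElem?_getD, List.getElem?_map, elts_idx x.1.2]
    rfl
  ext x y
  show ((elts m).map g).getD (psi m x : Fin (4 * m)) 0 = ((elts m).map g).getD (psi m y : Fin (4 * m)) 0 ↔
    g ((x.1 : ℕ), x.2.1, x.2.2) = g ((y.1 : ℕ), y.2.1, y.2.2)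
  rw [key, key]

/-! ### The label functions -/

/-- first end of an edge -/
def fstE (es : List (ℕ × ℕ)) (e : ℕ) : ℕ := (es.getD e (0, 0)).1

/-- second end of an edge -/
def sndE (es : List (ℕ × ℕ)) (e : ℕ) : ℕ := (es.getD e (0, 0)).2

/-- the labels of the partition of a vertex -/
def lV (es : List (ℕ × ℕ)) (u : ℕ) (x : ℕ × Bool × Bool) : ℕ :=
  if fstE es x.1 = u then (if x.2.1 = true then 1 else 0)
  else if sndE es x.1 = u then (if x.2.2 = true then 1 else 0) else idx x + 2

/-- the labels of the partition of an edge -/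
def lE (e : ℕ) (x : ℕ × Bool × Bool) : ℕ := if x.1 = e then 0 else idx x + 1

theorem idx_inj {m : ℕ} {x y : Fin m × Bool × Bool}
    (h : idx ((x.1 : ℕ), x.2.1, x.2.2) = idx ((y.1 : ℕ), y.2.1, y.2.2)) : x = y :=
  (psi m).injective (Fin.ext h)

section Instance

variable {N : ℕ} {es : List (ℕ × ℕ)} (ha : ∀ p ∈ es, p.1 < N) (hb : ∀ p ∈ es, p.2 < N)

/-- first end, as a function on `Fin` -/
def fa (ha : ∀ p ∈ es, p.1 < N) (e : Fin es.length) : Fin N :=
  ⟨fstE es e, by
    unfold fstE
    rw [List.getD_eq_getElem?_getD, List.getElem?_eq_getElem e.2]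
    exact ha _ (List.getElem_mem e.2)⟩

/-- second end, as a function on `Fin` -/
def fb (hb : ∀ p ∈ es, p.2 < N) (e : Fin es.length) : Fin N :=
  ⟨sndE es e, by
    unfold sndE
    rw [List.getD_eq_getElem?_getD, List.getElem?_eq_getElem e.2]
    exact hb _ (List.getElem_mem e.2)⟩

theorem fa_val (e : Fin es.length) : ((fa ha e : Fin N) : ℕ) = fstE es e := rfl

theorem fb_val (e : Fin es.length) : ((fb hb e : Fin N) : ℕ) = sndE es e := rfl

theorem fa_eq (e : Fin es.length) (u : Fin N) : fa ha e = u ↔ fstE es e = u := Fin.ext_iff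

theorem fb_eq (e : Fin es.length) (u : Fin N) : fb hb e = u ↔ sndE es e = u := Fin.ext_iff

theorem XV_rel {V E : Type} {a b : E → V} {u : V} (hab : ∀ e, a e ≠ b e)
    (x y : E × Bool × Bool) : XV a b u x y ↔ x = y ∨ (x ∈ AV a b u true ∧ y ∈ AV a b u true) ∨
      (x ∈ AV a b u false ∧ y ∈ AV a b u false) := by
  unfold XV
  have hdis : ∀ z, z ∈ AV a b u true → z ∈ AV a b u false → False := by
    rintro z (⟨h1, h2⟩ | ⟨h1, h2⟩) (⟨h3, h4⟩ | ⟨h3, h4⟩)
    · rw [h2] at h4; cases h4
    · exact hab _ (h1.trans h3.symm)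
    · exact hab _ (h3.trans h1.symm)
    · rw [h2] at h4; cases h4
  rw [sup_one_rel]
  have hm : ∀ z, Quotient.mk (one (AV a b u false)) z ∈
      meets (AV a b u true) (one (AV a b u false)) ↔ z ∈ AV a b u true := by
    intro z
    constructor
    · rintro ⟨w, hw, hwz⟩
      have : one (AV a b u false) w z := Quotient.exact hwz
      rcases this with h | ⟨h, -⟩
      · rw [← h]; exact hw
      · exact absurd h (fun h => hdis _ hw h)
    · intro hz
      exact ⟨z, hz, rfl⟩
  rw [hm, hm, one_rel]
  tauto

theorem ker_lV (hab : ∀ e, fa ha e ≠ fb hb e) (u : Fin N) :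
    (Setoid.ker fun x : Fin es.length × Bool × Bool => lV es u ((x.1 : ℕ), x.2.1, x.2.2)) =
      XV (fa ha) (fb hb) u := by
  have hab' : ∀ e : Fin es.length, fstE es e ≠ sndE es e := fun e h => hab e (Fin.ext h)
  ext x y
  rw [XV_rel hab]
  show lV es u ((x.1 : ℕ), x.2.1, x.2.2) = lV es u ((y.1 : ℕ), y.2.1, y.2.2) ↔ _
  have hmem : ∀ (z : Fin es.length × Bool × Bool) (r : Bool), z ∈ AV (fa ha) (fb hb) u r ↔
      (fstE es z.1 = u ∧ z.2.1 = r) ∨ (sndE es z.1 = u ∧ z.2.2 = r) := by
    intro z r
    unfold AV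
    rw [Set.mem_ofPred_eq, fa_eq, fb_eq]
  have hval : ∀ (z : Fin es.length × Bool × Bool),
      (z ∈ AV (fa ha) (fb hb) u true ∧ z ∉ AV (fa ha) (fb hb) u false ∧
        lV es u ((z.1 : ℕ), z.2.1, z.2.2) = 1) ∨
      (z ∈ AV (fa ha) (fb hb) u false ∧ z ∉ AV (fa ha) (fb hb) u true ∧
        lV es u ((z.1 : ℕ), z.2.1, z.2.2) = 0) ∨
      (z ∉ AV (fa ha) (fb hb) u true ∧ z ∉ AV (fa ha) (fb hb) u false ∧
        lV es u ((z.1 : ℕ), z.2.1, z.2.2) = idx ((z.1 : ℕ), z.2.1, z.2.2) + 2) := by
    intro z
    have h0 := hab' z.1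
    rw [hmem, hmem]
    unfold lV
    by_cases h1 : fstE es z.1 = u
    · have h2 : sndE es z.1 ≠ u := fun h => h0 (h1.trans h.symm)
      simp only [h1, if_true, h2, false_and, or_false, true_and]
      cases z.2.1 <;> simp
    · by_cases h2 : sndE es z.1 = u
      · simp only [h1, if_false, h2, if_true, false_and, false_or, true_and]
        cases z.2.2 <;> simp
      · simp only [h1, if_false, h2, false_and, or_self, not_false_eq_true, true_and]
        simp
  constructor
  · intro h
    rcases hval x with ⟨hx1, -, hx2⟩ | ⟨hx1, -, hx2⟩ | ⟨-, -, hx2⟩ <;>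
      rcases hval y with ⟨hy1, -, hy2⟩ | ⟨hy1, -, hy2⟩ | ⟨-, -, hy2⟩
    · exact Or.inr (Or.inl ⟨hx1, hy1⟩)
    · omega
    · omega
    · omega
    · exact Or.inr (Or.inr ⟨hx1, hy1⟩)
    · omega
    · omega
    · omega
    · exact Or.inl (idx_inj (by omega))
  · rintro (rfl | ⟨hx, hy⟩ | ⟨hx, hy⟩)
    · rfl
    · rcases hval x with ⟨-, -, hx2⟩ | ⟨-, hx2, -⟩ | ⟨hx2, -, -⟩
      · rcases hval y with ⟨-, -, hy2⟩ | ⟨-, hy2, -⟩ | ⟨hy2, -, -⟩
        · rw [hx2, hy2]
        · exact absurd hy hy2
        · exact absurd hy hy2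
      · exact absurd hx hx2
      · exact absurd hx hx2
    · rcases hval x with ⟨-, hx2, -⟩ | ⟨-, -, hx2⟩ | ⟨-, hx2, -⟩
      · exact absurd hx hx2
      · rcases hval y with ⟨-, hy2, -⟩ | ⟨-, -, hy2⟩ | ⟨-, hy2, -⟩
        · exact absurd hy hy2
        · rw [hx2, hy2]
        · exact absurd hy hy2
      · exact absurd hx hx2

theorem ker_lE {m : ℕ} (e : Fin m) :
    (Setoid.ker fun x : Fin m × Bool × Bool => lE e ((x.1 : ℕ), x.2.1, x.2.2)) = XE e := by
  ext x y
  show lE e ((x.1 : ℕ), x.2.1, x.2.2) = lE e ((y.1 : ℕ), y.2.1, y.2.2) ↔ (x = y ∨ (x.1 = e ∧ y.1 = e))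
  unfold lE
  by_cases hx : x.1 = e
  · by_cases hy : y.1 = e
    · simp [hx, hy]
    · have hy' : (y.1 : ℕ) ≠ e := fun h => hy (Fin.ext h)
      simp only [hx, if_true, hy', if_false, hy, and_false, or_false]
      constructor
      · intro h; omega
      · intro h; rw [h] at hx; exact absurd hx hy
  · have hx' : (x.1 : ℕ) ≠ e := fun h => hx (Fin.ext h)
    by_cases hy : y.1 = e
    · simp only [hy, if_true, hx', if_false, hx, false_and, or_false]
      constructor
      · intro h; omega
      · intro h; rw [← h] at hy; exact absurd hy hx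
    · have hy' : (y.1 : ℕ) ≠ e := fun h => hy (Fin.ext h)
      simp only [hx', if_false, hy', hx, hy, and_false, or_false]
      constructor
      · intro h; exact idx_inj (by omega)
      · intro h; rw [h]

theorem ker_idx {m : ℕ} :
    (Setoid.ker fun x : Fin m × Bool × Bool => idx ((x.1 : ℕ), x.2.1, x.2.2)) = ⊥ := by
  ext x y
  show idx ((x.1 : ℕ), x.2.1, x.2.2) = idx ((y.1 : ℕ), y.2.1, y.2.2) ↔ x = y
  exact ⟨idx_inj, fun h => by rw [h]⟩

theorem ker_zero {m : ℕ} :
    (Setoid.ker fun _ : Fin m × Bool × Bool => (0 : ℕ)) = ⊤ := by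
  ext x y
  show (0 : ℕ) = 0 ↔ True
  simp

/-! ### The instance -/

/-- the degree -/
def dg (es : List (ℕ × ℕ)) (u : ℕ) : ℕ :=
  ((List.range es.length).map fun e => if fstE es e = u then 1 else 0).sum +
  ((List.range es.length).map fun e => if sndE es e = u then 1 else 0).sum

/-- multiplicity of a vertex -/
def mV (es : List (ℕ × ℕ)) (u : ℕ) : ℕ := 2 * dg es u - 1

/-- multiplicity of an edge -/
def mE (es : List (ℕ × ℕ)) (e : ℕ) : ℕ :=
  16 * es.length + 1 - mV es (fstE es e) - mV es (sndE es e)

/-- multiplicity of the partition with one class -/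
def mT (N : ℕ) (es : List (ℕ × ℕ)) : ℕ :=
  ((List.range N).map fun u => mV es u).sum + ((List.range es.length).map fun e => mE es e).sum + 2

/-- the instance: a list of lists of labels -/
def instL (N : ℕ) (es : List (ℕ × ℕ)) : List (List ℕ) :=
  (List.range N).flatMap (fun u => List.replicate (mV es u)
    ((elts es.length).map fun x => lV es u x)) ++
  (List.range es.length).flatMap (fun e => List.replicate (mE es e)
    ((elts es.length).map fun x => lE e x)) ++
  List.replicate (mT N es) ((elts es.length).map fun _ => 0) ++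
  List.replicate (2 * (16 * es.length + 1)) ((elts es.length).map fun x => idx x)

theorem sum_range_fin (n : ℕ) (f : ℕ → ℕ) : ((List.range n).map f).sum = ∑ i : Fin n, f i := by
  induction n with
  | zero => rfl
  | succ n ih =>
    rw [List.range_succ, List.map_append, List.sum_append, ih, Fin.sum_univ_castSucc]
    simp

theorem deg_eq (u : Fin N) : deg (fa ha) (fb hb) u = dg es u := by
  unfold deg dg
  rw [sum_range_fin, sum_range_fin, Finset.card_filter, Finset.card_filter]
  simp only [fa_eq, fb_eq]

theorem mulV_eq (u : Fin N) : mulV (fa ha) (fb hb) u = mV es u := by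
  unfold mulV mV
  rw [deg_eq]

theorem mulE_eq (e : Fin es.length) : mulE (fa ha) (fb hb) e = mE es e := by
  unfold mulE mE kap
  rw [mulV_eq, mulV_eq, Fintype.card_fin, fa_val, fb_val]

theorem mulT_eq : mulT (fa ha) (fb hb) = mT N es := by
  unfold mulT mT
  rw [sum_range_fin, sum_range_fin]
  simp only [mulV_eq, mulE_eq]

theorem total_instL (hab : ∀ e, fa ha e ≠ fb hb e) (Y : Setoid (Fin (4 * es.length))) :
    total ((instL N es).map (lab (4 * es.length))) Y =
      cost (fa ha) (fb hb) (Y.comap (psi es.length)) := by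
  have hV : ∀ u : Fin N, pdist (lab (4 * es.length) ((elts es.length).map fun x => lV es u x)) Y =
      pdist (XV (fa ha) (fb hb) u) (Y.comap (psi es.length)) := by
    intro u
    rw [← pdist_comap (psi es.length), comap_lab, ← ker_lV ha hb hab]
  have hE : ∀ e : Fin es.length, pdist (lab (4 * es.length) ((elts es.length).map
      fun x => lE e x)) Y = pdist (XE e) (Y.comap (psi es.length)) := by
    intro e
    rw [← pdist_comap (psi es.length), comap_lab, ← ker_lE]
  have hT : pdist (lab (4 * es.length) ((elts es.length).map fun _ => 0)) Y =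
      pdist ⊤ (Y.comap (psi es.length)) := by
    rw [← pdist_comap (psi es.length), comap_lab, ← ker_zero]
  have hB : pdist (lab (4 * es.length) ((elts es.length).map fun x => idx x)) Y =
      pdist ⊥ (Y.comap (psi es.length)) := by
    rw [← pdist_comap (psi es.length), comap_lab, ← ker_idx]
  unfold instL cost
  rw [List.map_append, List.map_append, List.map_append, total_append, total_append, total_append,
    List.map_replicate, List.map_replicate, total_replicate, total_replicate, hT, hB,
    mulT_eq ha hb]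
  have h1 : (List.flatMap (fun u => List.replicate (mV es u) ((elts es.length).map
      fun x => lV es u x)) (List.range N)).map (lab (4 * es.length)) =
      (List.range N).flatMap (fun u => List.replicate (mV es u)
        (lab (4 * es.length) ((elts es.length).map fun x => lV es u x))) := by
    rw [List.map_flatMap]
    simp only [List.map_replicate]
  have h2 : (List.flatMap (fun e => List.replicate (mE es e) ((elts es.length).map
      fun x => lE e x)) (List.range es.length)).map (lab (4 * es.length)) =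
      (List.range es.length).flatMap (fun e => List.replicate (mE es e)
        (lab (4 * es.length) ((elts es.length).map fun x => lE e x))) := by
    rw [List.map_flatMap]
    simp only [List.map_replicate]
  rw [h1, h2, total_flatMap, total_flatMap, sum_range_fin, sum_range_fin]
  simp only [hV, hE, mulV_eq, mulE_eq]
  unfold mulB kap
  rw [Fintype.card_fin]

/-! ### The value of the discrete partition -/

theorem pdist_bot {S : Type} [Fintype S] (X : Setoid S) :
    pdist X ⊥ + nc X = Fintype.card S := by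
  have h := pdist_formula X ⊥
  rw [sup_bot_eq, nc_bot] at h
  have h2 : nc X ≤ Fintype.card S := by
    rw [← nc_bot]
    exact nc_le_of_le bot_le
  omega

theorem nm_bot {S : Type} [Fintype S] (A : Set S) : nm A (⊥ : Setoid S) = A.ncard := by
  unfold nm
  have : meets A (⊥ : Setoid S) = Quotient.mk (⊥ : Setoid S) '' A := by
    ext c
    constructor
    · rintro ⟨x, hx, rfl⟩; exact ⟨x, hx, rfl⟩
    · rintro ⟨x, hx, rfl⟩; exact ⟨x, hx, rfl⟩
  rw [this]
  apply Set.InjOn.ncard_image
  intro x _ y _ h
  exact Quotient.exact h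

end Instance

section Bot

variable {V E : Type} [Fintype V] [Fintype E] [DecidableEq V] [DecidableEq E]

theorem ncard_AA (a b : E → V) (hab : ∀ e, a e ≠ b e) (u : V) :
    (AA a b u).ncard = 4 * deg a b u := by
  classical
  have h1 : AA a b u = ((((univ.filter fun e => a e = u) ∪ (univ.filter fun e => b e = u)) ×ˢ
      (univ : Finset (Bool × Bool)) : Finset (E × Bool × Bool)) : Set (E × Bool × Bool)) := by
    ext x
    rw [mem_AA]
    simp
  rw [h1, Set.ncard_coe_finset, Finset.card_product, Finset.card_union_of_disjoint]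
  · simp [deg]; ring
  · rw [Finset.disjoint_left]
    intro e he he'
    simp only [Finset.mem_filter, Finset.mem_univ, true_and] at he he'
    exact hab e (he.trans he'.symm)

theorem pdist_XV_bot (a b : E → V) (hab : ∀ e, a e ≠ b e) (hdeg : ∀ u, ∃ e, a e = u ∨ b e = u)
    (u : V) : pdist (XV a b u) ⊥ = 4 * deg a b u - 2 := by
  have h1 := pdist_bot (XV a b u)
  have h2 : ¬ Linked (AV a b u true) (AV a b u false) ⊥ := by
    rintro ⟨x, hx, y, hy, hxy⟩
    have : x = y := hxy
    subst this
    rcases hx with ⟨h3, h4⟩ | ⟨h3, h4⟩ <;> rcases hy with ⟨h5, h6⟩ | ⟨h5, h6⟩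
    · rw [h4] at h6; cases h6
    · exact hab _ (h3.trans h5.symm)
    · exact hab _ (h5.trans h3.symm)
    · rw [h4] at h6; cases h6
  have h3 := nc_two_unlinked _ _ (AV_nonempty (hdeg u) true) (AV_nonempty (hdeg u) false) ⊥ h2
  rw [sup_bot_eq, nc_bot, nm_bot] at h3
  have h4 := ncard_AA a b hab u
  unfold AA at h4
  unfold XV at h1
  rw [h4] at h3
  unfold XV
  omega

theorem pdist_XE_bot (e : E) : pdist (XE e) ⊥ = 3 := by
  have h1 := pdist_bot (XE e)
  have h3 := nc_one_sup (AE e) ⟨(e, true, true), rfl⟩ ⊥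
  rw [sup_bot_eq, nc_bot, nm_bot] at h3
  have h4 : (AE e).ncard = 4 := by
    have : AE e = ((({e} : Finset E) ×ˢ (univ : Finset (Bool × Bool)) : Finset (E × Bool × Bool)) :
        Set (E × Bool × Bool)) := by
      ext ⟨x, s, t⟩
      simp only [AE, Set.mem_ofPred_eq, Finset.coe_product, Finset.coe_singleton,
        Finset.coe_univ, Set.mem_prod, Set.mem_singleton_iff, Set.mem_univ, and_true]
    rw [this, Set.ncard_coe_finset, Finset.card_product]
    simp
  unfold XE at h1 ⊢
  rw [h4] at h3
  omega

theorem pdist_top_bot [Nonempty E] :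
    pdist (⊤ : Setoid (E × Bool × Bool)) ⊥ = 4 * Fintype.card E - 1 := by
  have h1 := pdist_bot (⊤ : Setoid (E × Bool × Bool))
  rw [nc_top, Fintype.card_prod, Fintype.card_prod, Fintype.card_bool] at h1
  omega

theorem pdist_bot_bot : pdist (⊥ : Setoid (E × Bool × Bool)) ⊥ = 0 := by
  have h1 := pdist_bot (⊥ : Setoid (E × Bool × Bool))
  rw [nc_bot] at h1
  omega

end Bot

section Value

variable {N : ℕ} {es : List (ℕ × ℕ)} (ha : ∀ p ∈ es, p.1 < N) (hb : ∀ p ∈ es, p.2 < N)

/-- the total distance of the discrete partition to the instance -/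
def botVal (N : ℕ) (es : List (ℕ × ℕ)) : ℕ :=
  ((List.range N).map fun u => mV es u * (4 * dg es u - 2)).sum +
  ((List.range es.length).map fun e => mE es e * 3).sum + mT N es * (4 * es.length - 1)

theorem cost_bot_eq (hab : ∀ e, fa ha e ≠ fb hb e)
    (hdeg : ∀ u, ∃ e, fa ha e = u ∨ fb hb e = u) [Nonempty (Fin es.length)] :
    cost (fa ha) (fb hb) ⊥ = botVal N es := by
  unfold cost botVal
  rw [sum_range_fin, sum_range_fin, pdist_top_bot, pdist_bot_bot, mulT_eq ha hb, Fintype.card_fin]
  simp only [pdist_XV_bot _ _ hab hdeg, pdist_XE_bot, deg_eq, mulV_eq, mulE_eq]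
  ring

/-! ### At most two big classes -/

theorem big_of_ker {n : ℕ} (l : List ℕ) (p q : ℕ)
    (h : ∀ i j : Fin n, i ≠ j → l.getD i 0 = l.getD j 0 → l.getD i 0 = p ∨ l.getD i 0 = q) :
    AtMostTwoBig (lab n l) := by
  unfold AtMostTwoBig
  have h1 : {D : Set (Fin n) | D ∈ (lab n l).classes ∧ D.Nontrivial} ⊆
      {{i : Fin n | l.getD i 0 = p}, {i : Fin n | l.getD i 0 = q}} := by
    rintro D ⟨⟨y, rfl⟩, x, hx, z, hz, hxz⟩
    have hx' : l.getD x 0 = l.getD y 0 := hx
    have hz' : l.getD z 0 = l.getD y 0 := hz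
    rcases h x z hxz (hx'.trans hz'.symm) with h2 | h2
    · left
      ext w
      show l.getD w 0 = l.getD y 0 ↔ l.getD w 0 = p
      rw [← hx', h2]
    · right
      ext w
      show l.getD w 0 = l.getD y 0 ↔ l.getD w 0 = q
      rw [← hx', h2]
  refine (Set.ncard_le_ncard h1 (Set.toFinite _)).trans ((Set.ncard_insert_le _ _).trans ?_)
  rw [Set.ncard_singleton]

theorem big_map {m : ℕ} (g : ℕ × Bool × Bool → ℕ) (p q : ℕ)
    (h : ∀ x y : ℕ × Bool × Bool, x ≠ y → g x = g y → g x = p ∨ g x = q) :
    AtMostTwoBig (lab (4 * m) ((elts m).map g)) := by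
  apply big_of_ker _ p q
  intro i j hij hg
  obtain ⟨x, rfl⟩ := (psi m).surjective i
  obtain ⟨y, rfl⟩ := (psi m).surjective j
  have key : ∀ x : Fin m × Bool × Bool, ((elts m).map g).getD (psi m x : Fin (4 * m)) 0 =
      g ((x.1 : ℕ), x.2.1, x.2.2) := by
    intro x
    rw [psi_val, List.getD_eq_getElem?_getD, List.getElem?_map, elts_idx x.1.2]
    rfl
  rw [key] at hg ⊢
  rw [key] at hg
  refine h _ _ (fun hxy => hij ?_) hg
  have : idx ((x.1 : ℕ), x.2.1, x.2.2) = idx ((y.1 : ℕ), y.2.1, y.2.2) := by rw [hxy]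
  rw [idx_inj this]

theorem idx_inj' {x y : ℕ × Bool × Bool} (h : idx x = idx y) : x = y := by
  obtain ⟨e, s, t⟩ := x
  obtain ⟨e', s', t'⟩ := y
  unfold idx at h
  simp only at h
  have h2 : e = e' ∧ s = s' ∧ t = t' := by
    cases s <;> cases s' <;> cases t <;> cases t' <;>
      simp only [Bool.false_eq_true, if_true, if_false, and_true, reduceCtorEq, and_false] at h ⊢ <;>
      omega
  obtain ⟨rfl, rfl, rfl⟩ := h2
  rfl

theorem big_instL (N : ℕ) (es : List (ℕ × ℕ)) :
    ∀ l ∈ instL N es, AtMostTwoBig (lab (4 * es.length) l) := by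
  intro l hl
  unfold instL at hl
  rw [List.mem_append, List.mem_append, List.mem_append] at hl
  rcases hl with ((hl | hl) | hl) | hl
  · obtain ⟨u, -, hu⟩ := List.mem_flatMap.1 hl
    rw [List.eq_of_mem_replicate hu]
    apply big_map (fun x => lV es u x) 0 1
    intro x y hxy h
    unfold lV at h ⊢
    by_contra hc
    push Not at hc
    split_ifs at h hc <;> first | omega | (exact hxy (idx_inj' (by omega)))
  · obtain ⟨e, -, he⟩ := List.mem_flatMap.1 hl
    rw [List.eq_of_mem_replicate he]
    apply big_map (fun x => lE e x) 0 0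
    intro x y hxy h
    unfold lE at h ⊢
    by_contra hc
    push Not at hc
    split_ifs at h hc <;> first | omega | (exact hxy (idx_inj' (by omega)))
  · rw [List.eq_of_mem_replicate hl]
    exact big_map (fun _ => 0) 0 0 (fun _ _ _ _ => Or.inl rfl)
  · rw [List.eq_of_mem_replicate hl]
    exact big_map (fun x => idx x) 0 0 (fun x y hxy h => absurd (idx_inj' h) hxy)

theorem length_instL (N : ℕ) (es : List (ℕ × ℕ)) : ∀ l ∈ instL N es, l.length = 4 * es.length := by
  intro l hl
  unfold instL at hl
  rw [List.mem_append, List.mem_append, List.mem_append] at hl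
  rcases hl with ((hl | hl) | hl) | hl
  · obtain ⟨u, -, hu⟩ := List.mem_flatMap.1 hl
    rw [List.eq_of_mem_replicate hu, List.length_map, length_elts]
  · obtain ⟨e, -, he⟩ := List.mem_flatMap.1 hl
    rw [List.eq_of_mem_replicate he, List.length_map, length_elts]
  · rw [List.eq_of_mem_replicate hl, List.length_map, length_elts]
  · rw [List.eq_of_mem_replicate hl, List.length_map, length_elts]

end Value

end Pool.Agent.LibPartitionMedian
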