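import Pool.Agent.LibPartitionMedian.Hard

/-!
The reduction to the partition median problem is computable in polynomial time.
-/

namespace Pool.Agent.LibPartitionMedian

open Finset Pool.Agent.LibComplexity Enc

variable {𝒜 : Set Orc} {α : Type} [Enc α]

theorem pt_occ {f : Orc → α → CNF Vr} (hf : PTf 𝒜 f) : PTf 𝒜 (fun A x => occ (f A x)) := by
  have h : PTf 𝒜 (fun _ φ => occ φ) := by unfold occ; with_reducible
                                                        apply PTf.flatMap; apply PTf.range
                                                        apply PTf.length; apply PTf.id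
                                                        apply PTf.map; apply PTf.listGetD
                                                        apply PTf.fst; apply PTf.id; apply PTf.snd
                                                        apply PTf.id; apply PTf.const
                                                        apply PTf.pair; apply PTf.snd
                                                        apply PTf.fst; apply PTf.id; apply PTf.snd
                                                        apply PTf.id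
  have h2 := h.comp hf
  exact h2

theorem pt_oc {f : Orc → α → CNF Vr} {g : Orc → α → ℕ} (hf : PTf 𝒜 f) (hg : PTf 𝒜 g) :
    PTf 𝒜 (fun A x => oc (f A x) (g A x)) := by
  unfold oc
  with_reducible
    apply PTf.listGetD; apply pt_occ; assumption; assumption; apply PTf.const

theorem pt_confl {f g : Orc → α → ℕ × Vr × Bool} (hf : PTf 𝒜 f) (hg : PTf 𝒜 g) :
    PTf 𝒜 (fun A x => confl (f A x) (g A x)) := by
  unfold confl
  with_reducible
    apply PTf.bor; apply PTf.decide_eq; apply PTf.fst; assumption; apply PTf.fst; assumption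
    apply PTf.band; apply PTf.decide_eq; apply PTf.fst; apply PTf.snd; assumption; apply PTf.fst
    apply PTf.snd; assumption; apply PTf.bnot; apply PTf.decide_eq; apply PTf.snd; apply PTf.snd
    assumption; apply PTf.snd; apply PTf.snd; assumption

theorem pt_edges {f : Orc → α → CNF Vr} (hf : PTf 𝒜 f) : PTf 𝒜 (fun A x => edges (f A x)) := by
  have h : PTf 𝒜 (fun _ φ => edges φ) := by
    unfold edges
    with_reducible
      apply PTf.flatMap; apply PTf.range; apply PTf.add; apply PTf.length; apply pt_occ
      apply PTf.id; apply PTf.const; apply PTf.map; apply PTf.filter; apply PTf.range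
      apply PTf.snd; apply PTf.id; apply PTf.bor; apply PTf.decide_eq; apply PTf.snd
      apply PTf.fst; apply PTf.id; apply PTf.length; apply pt_occ; apply PTf.fst; apply PTf.fst
      apply PTf.id; apply pt_confl; apply pt_oc; apply PTf.fst; apply PTf.fst; apply PTf.id
      apply PTf.snd; apply PTf.id; apply pt_oc; apply PTf.fst; apply PTf.fst; apply PTf.id
      apply PTf.snd; apply PTf.fst; apply PTf.id; apply PTf.pair; apply PTf.snd; apply PTf.id
      apply PTf.snd; apply PTf.fst; apply PTf.id
  have h2 := h.comp hf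
  exact h2

theorem pt_fstE {f : Orc → α → List (ℕ × ℕ)} {g : Orc → α → ℕ} (hf : PTf 𝒜 f) (hg : PTf 𝒜 g) :
    PTf 𝒜 (fun A x => fstE (f A x) (g A x)) := by
  unfold fstE
  with_reducible
    apply PTf.fst; apply PTf.listGetD; assumption; assumption; apply PTf.const

theorem pt_sndE {f : Orc → α → List (ℕ × ℕ)} {g : Orc → α → ℕ} (hf : PTf 𝒜 f) (hg : PTf 𝒜 g) :
    PTf 𝒜 (fun A x => sndE (f A x) (g A x)) := by
  unfold sndE
  with_reducible
    apply PTf.snd; apply PTf.listGetD; assumption; assumption; apply PTf.const

theorem pt_idx {f : Orc → α → ℕ × Bool × Bool} (hf : PTf 𝒜 f) :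
    PTf 𝒜 (fun A x => idx (f A x)) := by
  unfold idx
  with_reducible
    apply PTf.add; apply PTf.add; apply PTf.mul; apply PTf.const; apply PTf.fst; assumption
    apply PTf.ifP; apply PTf.decide_eq_true'; apply PTf.fst; apply PTf.snd; assumption
    apply PTf.const; apply PTf.const; apply PTf.ifP; apply PTf.decide_eq_true'; apply PTf.snd
    apply PTf.snd; assumption; apply PTf.const; apply PTf.const

theorem pt_elts {f : Orc → α → ℕ} (hf : PTf 𝒜 f) : PTf 𝒜 (fun A x => elts (f A x)) := by
  have h : PTf 𝒜 (fun _ m => elts m) := by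
    unfold elts
    with_reducible
      apply PTf.flatMap; apply PTf.range; apply PTf.id; apply PTf.cons; apply PTf.pair
      apply PTf.snd; apply PTf.id; apply PTf.const; apply PTf.cons; apply PTf.pair; apply PTf.snd
      apply PTf.id; apply PTf.const; apply PTf.cons; apply PTf.pair; apply PTf.snd; apply PTf.id
      apply PTf.const; apply PTf.cons; apply PTf.pair; apply PTf.snd; apply PTf.id
      apply PTf.const; apply PTf.const
  have h2 := h.comp hf
  exact h2

theorem pt_lV {f : Orc → α → List (ℕ × ℕ)} {g : Orc → α → ℕ} {h : Orc → α → ℕ × Bool × Bool}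
    (hf : PTf 𝒜 f) (hg : PTf 𝒜 g) (hh : PTf 𝒜 h) :
    PTf 𝒜 (fun A x => lV (f A x) (g A x) (h A x)) := by
  unfold lV
  with_reducible
    apply PTf.ifP; apply PTf.decide_eq; apply pt_fstE; assumption; apply PTf.fst; assumption
    assumption; apply PTf.ifP; apply PTf.decide_eq_true'; apply PTf.fst; apply PTf.snd; assumption
    apply PTf.const; apply PTf.const; apply PTf.ifP; apply PTf.decide_eq; apply pt_sndE
    assumption; apply PTf.fst; assumption; assumption; apply PTf.ifP; apply PTf.decide_eq_true'
    apply PTf.snd; apply PTf.snd; assumption; apply PTf.const; apply PTf.const; apply PTf.add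
    apply pt_idx; assumption; apply PTf.const

theorem pt_lE {g : Orc → α → ℕ} {h : Orc → α → ℕ × Bool × Bool} (hg : PTf 𝒜 g) (hh : PTf 𝒜 h) :
    PTf 𝒜 (fun A x => lE (g A x) (h A x)) := by
  unfold lE
  with_reducible
    apply PTf.ifP; apply PTf.decide_eq; apply PTf.fst; assumption; assumption; apply PTf.const
    apply PTf.add; apply pt_idx; assumption; apply PTf.const

theorem pt_dg {f : Orc → α → List (ℕ × ℕ)} {g : Orc → α → ℕ} (hf : PTf 𝒜 f) (hg : PTf 𝒜 g) :
    PTf 𝒜 (fun A x => dg (f A x) (g A x)) := by
  have h : PTf 𝒜 (fun _ (p : List (ℕ × ℕ) × ℕ) => dg p.1 p.2) := by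
    unfold dg
    with_reducible
      apply PTf.add; apply PTf.sum; apply PTf.map; apply PTf.range; apply PTf.length
      apply PTf.fst; apply PTf.id; apply PTf.ifP; apply PTf.decide_eq; apply pt_fstE
      apply PTf.fst; apply PTf.fst; apply PTf.id; apply PTf.snd; apply PTf.id; apply PTf.snd
      apply PTf.fst; apply PTf.id; apply PTf.const; apply PTf.const; apply PTf.sum; apply PTf.map
      apply PTf.range; apply PTf.length; apply PTf.fst; apply PTf.id; apply PTf.ifP
      apply PTf.decide_eq; apply pt_sndE; apply PTf.fst; apply PTf.fst; apply PTf.id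
      apply PTf.snd; apply PTf.id; apply PTf.snd; apply PTf.fst; apply PTf.id; apply PTf.const
      apply PTf.const
  have h2 := h.comp (hf.pair hg)
  exact h2

theorem pt_mV {f : Orc → α → List (ℕ × ℕ)} {g : Orc → α → ℕ} (hf : PTf 𝒜 f) (hg : PTf 𝒜 g) :
    PTf 𝒜 (fun A x => mV (f A x) (g A x)) := by
  unfold mV
  with_reducible
    apply PTf.sub; apply PTf.mul; apply PTf.const; apply pt_dg; assumption; assumption
    apply PTf.const

theorem pt_mE {f : Orc → α → List (ℕ × ℕ)} {g : Orc → α → ℕ} (hf : PTf 𝒜 f) (hg : PTf 𝒜 g) :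
    PTf 𝒜 (fun A x => mE (f A x) (g A x)) := by
  unfold mE
  with_reducible
    apply PTf.sub; apply PTf.sub; apply PTf.add; apply PTf.mul; apply PTf.const; apply PTf.length
    assumption; apply PTf.const; apply pt_mV; assumption; apply pt_fstE; assumption; assumption
    apply pt_mV; assumption; apply pt_sndE; assumption; assumption

theorem pt_mT {f : Orc → α → List (ℕ × ℕ)} {g : Orc → α → ℕ} (hg : PTf 𝒜 g) (hf : PTf 𝒜 f) :
    PTf 𝒜 (fun A x => mT (g A x) (f A x)) := by
  have h : PTf 𝒜 (fun _ (p : ℕ × List (ℕ × ℕ)) => mT p.1 p.2) := by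
    unfold mT
    with_reducible
      apply PTf.add; apply PTf.add; apply PTf.sum; apply PTf.map; apply PTf.range; apply PTf.fst
      apply PTf.id; apply pt_mV; apply PTf.snd; apply PTf.fst; apply PTf.id; apply PTf.snd
      apply PTf.id; apply PTf.sum; apply PTf.map; apply PTf.range; apply PTf.length; apply PTf.snd
      apply PTf.id; apply pt_mE; apply PTf.snd; apply PTf.fst; apply PTf.id; apply PTf.snd
      apply PTf.id; apply PTf.const
  have h2 := h.comp (hg.pair hf)
  exact h2

theorem pt_instL {f : Orc → α → List (ℕ × ℕ)} {g : Orc → α → ℕ} (hg : PTf 𝒜 g) (hf : PTf 𝒜 f) :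
    PTf 𝒜 (fun A x => instL (g A x) (f A x)) := by
  have h : PTf 𝒜 (fun _ (p : ℕ × List (ℕ × ℕ)) => instL p.1 p.2) := by
    unfold instL
    with_reducible
      apply PTf.append; apply PTf.append; apply PTf.append; apply PTf.flatMap; apply PTf.range
      apply PTf.fst; apply PTf.id; apply PTf.replicate; apply pt_mV; apply PTf.snd; apply PTf.fst
      apply PTf.id; apply PTf.snd; apply PTf.id; apply PTf.map; apply pt_elts; apply PTf.length
      apply PTf.snd; apply PTf.fst; apply PTf.id; apply pt_lV; apply PTf.snd; apply PTf.fst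
      apply PTf.fst; apply PTf.id; apply PTf.snd; apply PTf.fst; apply PTf.id; apply PTf.snd
      apply PTf.id; apply PTf.flatMap; apply PTf.range; apply PTf.length; apply PTf.snd
      apply PTf.id; apply PTf.replicate; apply pt_mE; apply PTf.snd; apply PTf.fst; apply PTf.id
      apply PTf.snd; apply PTf.id; apply PTf.map; apply pt_elts; apply PTf.length; apply PTf.snd
      apply PTf.fst; apply PTf.id; apply pt_lE; apply PTf.snd; apply PTf.fst; apply PTf.id
      apply PTf.snd; apply PTf.id; apply PTf.replicate; apply pt_mT; apply PTf.fst; apply PTf.id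
      apply PTf.snd; apply PTf.id; apply PTf.map; apply pt_elts; apply PTf.length; apply PTf.snd
      apply PTf.id; apply PTf.const; apply PTf.replicate; apply PTf.mul; apply PTf.const
      apply PTf.add; apply PTf.mul; apply PTf.const; apply PTf.length; apply PTf.snd; apply PTf.id
      apply PTf.const; apply PTf.map; apply pt_elts; apply PTf.length; apply PTf.snd; apply PTf.id
      apply pt_idx; apply PTf.snd; apply PTf.id
  have h2 := h.comp (hg.pair hf)
  exact h2

theorem pt_botVal {f : Orc → α → List (ℕ × ℕ)} {g : Orc → α → ℕ} (hg : PTf 𝒜 g) (hf : PTf 𝒜 f) :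
    PTf 𝒜 (fun A x => botVal (g A x) (f A x)) := by
  have h : PTf 𝒜 (fun _ (p : ℕ × List (ℕ × ℕ)) => botVal p.1 p.2) := by
    unfold botVal
    with_reducible
      apply PTf.add; apply PTf.add; apply PTf.sum; apply PTf.map; apply PTf.range; apply PTf.fst
      apply PTf.id; apply PTf.mul; apply pt_mV; apply PTf.snd; apply PTf.fst; apply PTf.id
      apply PTf.snd; apply PTf.id; apply PTf.sub; apply PTf.mul; apply PTf.const; apply pt_dg
      apply PTf.snd; apply PTf.fst; apply PTf.id; apply PTf.snd; apply PTf.id; apply PTf.const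
      apply PTf.sum; apply PTf.map; apply PTf.range; apply PTf.length; apply PTf.snd; apply PTf.id
      apply PTf.mul; apply pt_mE; apply PTf.snd; apply PTf.fst; apply PTf.id; apply PTf.snd
      apply PTf.id; apply PTf.const; apply PTf.mul; apply pt_mT; apply PTf.fst; apply PTf.id
      apply PTf.snd; apply PTf.id; apply PTf.sub; apply PTf.mul; apply PTf.const; apply PTf.length
      apply PTf.snd; apply PTf.id; apply PTf.const
  have h2 := h.comp (hg.pair hf)
  exact h2

theorem pt_inV {f : Orc → α → List (ℕ × ℕ)} {g : Orc → α → ℕ} {r : Orc → α → Bool}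
    {h : Orc → α → ℕ × Bool × Bool} (hf : PTf 𝒜 f) (hg : PTf 𝒜 g) (hr : PTf 𝒜 r)
    (hh : PTf 𝒜 h) : PTf 𝒜 (fun A x => inV (f A x) (g A x) (r A x) (h A x)) := by
  unfold inV
  with_reducible
    apply PTf.bor; apply PTf.band; apply PTf.decide_eq; apply pt_fstE; assumption; apply PTf.fst
    assumption; assumption; apply PTf.beq; apply PTf.fst; apply PTf.snd; assumption; assumption
    apply PTf.band; apply PTf.decide_eq; apply pt_sndE; assumption; apply PTf.fst; assumption
    assumption; apply PTf.beq; apply PTf.snd; apply PTf.snd; assumption; assumption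

theorem pt_lnk {f : Orc → α → List (ℕ × ℕ)} {Y : Orc → α → List ℕ} {g : Orc → α → ℕ}
    (hf : PTf 𝒜 f) (hY : PTf 𝒜 Y) (hg : PTf 𝒜 g) :
    PTf 𝒜 (fun A x => lnk (f A x) (Y A x) (g A x)) := by
  have h : PTf 𝒜 (fun _ (p : List (ℕ × ℕ) × List ℕ × ℕ) => lnk p.1 p.2.1 p.2.2) := by
    unfold lnk
    with_reducible
      apply PTf.any; apply pt_elts; apply PTf.length; apply PTf.fst; apply PTf.id; apply PTf.any
      apply pt_elts; apply PTf.length; apply PTf.fst; apply PTf.fst; apply PTf.id; apply PTf.band
      apply pt_inV; apply PTf.fst; apply PTf.fst; apply PTf.fst; apply PTf.id; apply PTf.snd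
      apply PTf.snd; apply PTf.fst; apply PTf.fst; apply PTf.id; apply PTf.const; apply PTf.snd
      apply PTf.fst; apply PTf.id; apply PTf.band; apply pt_inV; apply PTf.fst; apply PTf.fst
      apply PTf.fst; apply PTf.id; apply PTf.snd; apply PTf.snd; apply PTf.fst; apply PTf.fst
      apply PTf.id; apply PTf.const; apply PTf.snd; apply PTf.id; apply PTf.decide_eq
      apply PTf.listGetD; apply PTf.fst; apply PTf.snd; apply PTf.fst; apply PTf.fst; apply PTf.id
      apply pt_idx; apply PTf.snd; apply PTf.fst; apply PTf.id; apply PTf.const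
      apply PTf.listGetD; apply PTf.fst; apply PTf.snd; apply PTf.fst; apply PTf.fst; apply PTf.id
      apply pt_idx; apply PTf.snd; apply PTf.id; apply PTf.const
  have h2 := h.comp (hf.pair (hY.pair hg))
  exact h2

theorem pt_cntU {f : Orc → α → List (ℕ × ℕ)} {Y : Orc → α → List ℕ} {g : Orc → α → ℕ}
    (hg : PTf 𝒜 g) (hf : PTf 𝒜 f) (hY : PTf 𝒜 Y) :
    PTf 𝒜 (fun A x => cntU (g A x) (f A x) (Y A x)) := by
  have h : PTf 𝒜 (fun _ (p : ℕ × List (ℕ × ℕ) × List ℕ) => cntU p.1 p.2.1 p.2.2) := by
    unfold cntU
    with_reducible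
      apply PTf.sum; apply PTf.map; apply PTf.range; apply PTf.fst; apply PTf.id; apply PTf.ifP
      apply PTf.decide_eq_true'; apply pt_lnk; apply PTf.fst; apply PTf.snd; apply PTf.fst
      apply PTf.id; apply PTf.snd; apply PTf.snd; apply PTf.fst; apply PTf.id; apply PTf.snd
      apply PTf.id; apply PTf.const; apply PTf.const
  have h2 := h.comp (hg.pair (hf.pair hY))
  exact h2

theorem pt_cntE {f : Orc → α → List (ℕ × ℕ)} {Y : Orc → α → List ℕ}
    (hf : PTf 𝒜 f) (hY : PTf 𝒜 Y) :
    PTf 𝒜 (fun A x => cntE (f A x) (Y A x)) := by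
  have h : PTf 𝒜 (fun _ (p : List (ℕ × ℕ) × List ℕ) => cntE p.1 p.2) := by
    unfold cntE
    with_reducible
      apply PTf.sum; apply PTf.map; apply PTf.range; apply PTf.length; apply PTf.fst; apply PTf.id
      apply PTf.ifP; apply PTf.decide_and; apply PTf.decide_eq_true'; apply pt_lnk; apply PTf.fst
      apply PTf.fst; apply PTf.id; apply PTf.snd; apply PTf.fst; apply PTf.id; apply pt_fstE
      apply PTf.fst; apply PTf.fst; apply PTf.id; apply PTf.snd; apply PTf.id
      apply PTf.decide_eq_true'; apply pt_lnk; apply PTf.fst; apply PTf.fst; apply PTf.id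
      apply PTf.snd; apply PTf.fst; apply PTf.id; apply pt_sndE; apply PTf.fst; apply PTf.fst
      apply PTf.id; apply PTf.snd; apply PTf.id; apply PTf.const; apply PTf.const
  have h2 := h.comp (hf.pair hY)
  exact h2

end Pool.Agent.LibPartitionMedian
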